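import Pool.Agent.H16.TUBE.Cnt

/-!
# The number of cells: all minors, all cells
-/

set_option autoImplicit false
set_option linter.unusedSectionVars false

namespace Pool.TUBE

open MvPolynomial Finset MeasureTheory
open Pool.Agent.H50.PW

variable {ν α κ : Type} [Fintype ν] [DecidableEq ν] [Fintype α] [DecidableEq α] [Fintype κ]
  [DecidableEq κ]

/-- The cell of the value. -/
noncomputable def cell (g : κ → MvPolynomial ν ℝ) (x : ν → ℝ) : κ → ℤ := fun b => ⌊eval x (g b)⌋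

/-- The constant of the count. -/
noncomputable def cnC (m A N d : ℕ) : ℝ := ((A ^ m * 2 ^ N : ℕ) : ℝ) * cC m A N d

theorem cnC_nonneg (m A N d : ℕ) : 0 ≤ cnC m A N d :=
  mul_nonneg (Nat.cast_nonneg _) (cC_nonneg _ _ _ _)

variable {F : α → MvPolynomial ν ℝ} {g : κ → MvPolynomial ν ℝ} {w : α → ℝ} {ρ : ℝ}

/-- **The number of the cells** (CNT). -/
theorem cnt_cells {d : ℕ} (hF : ∀ a, (F a).totalDegree ≤ d) (hg : ∀ b, (g b).totalDegree ≤ d)
    (c : α → κ → ℝ) (hc : ∀ a b, |c a b| ≤ 1)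
    (hFg : ∀ a x j, eval x (pderiv j (F a)) = ∑ b, c a b * eval x (pderiv j (g b))) (hρ : 0 < ρ)
    (Z : Finset (ν → ℝ)) (hZ1 : ∀ x ∈ Z, ∀ a, |eval x (F a) - w a| ≤ 1)
    (hZ2 : ∀ x ∈ Z, ∃ S : ν → α, eval x (dp F S) ≠ 0 ∧
      ∀ T : ν → κ, |eval x (dp g T)| ≤ ρ * |eval x (dp F S)|)
    (hsep : ∀ x ∈ Z, ∀ x' ∈ Z, cell g x = cell g x' → x = x') :
    (Z.card : ℝ) ≤ cnC (Fintype.card ν) (Fintype.card α) (Fintype.card κ) d * ρ := by
  classical
  -- the classes: the minor and the parities of the cell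
  set par : (ν → ℝ) → (κ → Bool) := fun x b => decide (cell g x b % 2 = 0) with hpar
  set Zc : (ν → α) × (κ → Bool) → Finset (ν → ℝ) := fun s =>
    Z.filter (fun x => (eval x (dp F s.1) ≠ 0 ∧
      ∀ T : ν → κ, |eval x (dp g T)| ≤ ρ * |eval x (dp F s.1)|) ∧ par x = s.2) with hZc
  have hcov : Z ⊆ (univ : Finset ((ν → α) × (κ → Bool))).biUnion Zc := by
    intro x hx
    obtain ⟨S, hS⟩ := hZ2 x hx
    rw [Finset.mem_biUnion]
    exact ⟨(S, par x), Finset.mem_univ _, Finset.mem_filter.2 ⟨hx, hS, rfl⟩⟩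
  have hone : ∀ s, ((Zc s).card : ℝ) ≤
      cC (Fintype.card ν) (Fintype.card α) (Fintype.card κ) d * ρ := by
    intro s
    have hm : ∀ x ∈ Zc s, x ∈ Z ∧ (eval x (dp F s.1) ≠ 0 ∧
        ∀ T : ν → κ, |eval x (dp g T)| ≤ ρ * |eval x (dp F s.1)|) ∧ par x = s.2 :=
      fun x hx => Finset.mem_filter.1 hx
    refine cnt_fix (w := w) (S := s.1) hF hg c hc hFg hρ (Zc s) (fun x hx => hZ1 x (hm x hx).1)
      (fun x hx => (hm x hx).2.1.1) (fun x hx => (hm x hx).2.1.2) ?_
    intro x hx x' hx' hne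
    have h1 : cell g x ≠ cell g x' := fun h => hne (hsep x (hm x hx).1 x' (hm x' hx').1 h)
    obtain ⟨b, hb⟩ := Function.ne_iff.1 h1
    refine ⟨b, ?_⟩
    have h2 : par x b = par x' b := by rw [(hm x hx).2.2, (hm x' hx').2.2]
    have h3 : (cell g x b % 2 = 0) ↔ (cell g x' b % 2 = 0) := by
      simpa [hpar] using h2
    have h4 : 2 ≤ |cell g x b - cell g x' b| := by
      rcases le_total (cell g x b) (cell g x' b) with h | h
      · rw [abs_of_nonpos (by omega)]
        omega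
      · rw [abs_of_nonneg (by omega)]
        omega
    have h5 : (2 : ℝ) ≤ |(cell g x b : ℝ) - cell g x' b| := by exact_mod_cast h4
    have f1 := Int.floor_le (eval x (g b))
    have f2 := Int.lt_floor_add_one (eval x (g b))
    have f3 := Int.floor_le (eval x' (g b))
    have f4 := Int.lt_floor_add_one (eval x' (g b))
    have e1 : (cell g x b : ℝ) = (⌊eval x (g b)⌋ : ℝ) := rfl
    have e2 : (cell g x' b : ℝ) = (⌊eval x' (g b)⌋ : ℝ) := rfl
    rw [e1, e2] at h5
    rcases le_abs.1 h5 with h6 | h6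
    · exact le_trans (by linarith) (le_abs_self _)
    · exact le_trans (by linarith) (neg_le_abs _)
  have h1 : (Z.card : ℝ) ≤ ∑ s : (ν → α) × (κ → Bool), ((Zc s).card : ℝ) := by
    have h2 := (Finset.card_le_card hcov).trans Finset.card_biUnion_le
    exact_mod_cast h2
  refine h1.trans ((Finset.sum_le_sum fun s _ => hone s).trans (le_of_eq ?_))
  rw [Finset.sum_const, Finset.card_univ, Fintype.card_prod, Fintype.card_fun, Fintype.card_fun,
    Fintype.card_bool, nsmul_eq_mul]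
  unfold cnC
  push_cast
  ring

end Pool.TUBE
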