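import Pool.Agent.H16.TUBE.Main

/-!
# The number of cells of a polynomial map

`F` and `g` are polynomial maps of `ℝ ^ m`, the differentials of `F` are bounded combinations of
those of `g`. The number of the unit cubes which meet the image under `g` of
`{|F - w| ≤ 1, J_g ≤ ρ J_F}` is at most `C ρ`; `J_F`, `J_g` are the largest minors of order `m` of
the differentials, `C` depends only on the degrees and numbers.
-/

set_option autoImplicit false
set_option linter.unusedSectionVars false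

namespace Pool.TUBE

open MvPolynomial Finset MeasureTheory
open Pool.Agent.H50.PW

variable {ν α κ : Type} [Fintype ν] [DecidableEq ν] [Fintype α] [DecidableEq α] [Fintype κ]
  [DecidableEq κ]

/-- The determinant of the differentials of `F (S i)`, a polynomial. -/
noncomputable def dp (F : α → MvPolynomial ν ℝ) (S : ν → α) : MvPolynomial ν ℝ :=
  Matrix.det (Matrix.of fun i j => pderiv j (F (S i)))

theorem eval_dp (F : α → MvPolynomial ν ℝ) (S : ν → α) (x : ν → ℝ) :
    eval x (dp F S) = Matrix.det (Matrix.of fun i j => eval x (pderiv j (F (S i)))) := by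
  unfold dp
  rw [RingHom.map_det]
  rfl

theorem totalDegree_dp_le {d : ℕ} {F : α → MvPolynomial ν ℝ} (hF : ∀ a, (F a).totalDegree ≤ d)
    (S : ν → α) : (dp F S).totalDegree ≤ Fintype.card ν * d := by
  unfold dp
  rw [Matrix.det_apply]
  refine totalDegree_finsetSum_le fun σ _ => ?_
  rw [Units.smul_def]
  refine (totalDegree_smul_le _ _).trans ?_
  refine (totalDegree_finsetProd _ _).trans ?_
  refine (Finset.sum_le_sum fun i _ => (totalDegree_pderiv_le _ _).trans (hF _)).trans
    (le_of_eq ?_)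
  rw [Finset.sum_const, Finset.card_univ, smul_eq_mul]

/-- A determinant whose rows are combinations of given rows. -/
theorem det_comb (c : ν → κ → ℝ) (G : κ → ν → ℝ) (hc : ∀ i b, |c i b| ≤ 1) {D : ℝ}
    (hD : ∀ T : ν → κ, |(Matrix.of fun i j => G (T i) j).det| ≤ D) :
    |(Matrix.of fun i j => ∑ b, c i b * G b j).det| ≤
      (Fintype.card κ : ℝ) ^ Fintype.card ν * D := by
  have h1 : (Matrix.of fun i j => ∑ b, c i b * G b j).det =
      ∑ T : ν → κ, (∏ i, c i (T i)) * (Matrix.of fun i j => G (T i) j).det := by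
    have h2 : (Matrix.of fun i j => ∑ b, c i b * G b j).det =
        (Matrix.detRowAlternating (n := ν) (R := ℝ)).toMultilinearMap
          (fun i => ∑ b, c i b • G b) := by
      show Matrix.det _ = Matrix.det _
      congr 1
      ext i j
      simp [Finset.sum_apply]
    rw [h2, MultilinearMap.map_sum]
    refine Finset.sum_congr rfl fun T _ => ?_
    rw [MultilinearMap.map_smul_univ, smul_eq_mul]
    rfl
  rw [h1]
  refine (Finset.abs_sum_le_sum_abs _ _).trans ?_
  have h3 : ∀ T ∈ (univ : Finset (ν → κ)), |(∏ i, c i (T i)) *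
      (Matrix.of fun i j => G (T i) j).det| ≤ D := by
    intro T _
    rw [abs_mul, Finset.abs_prod]
    have h4 : ∏ i, |c i (T i)| ≤ 1 := Finset.prod_le_one (fun i _ => abs_nonneg _)
      fun i _ => hc i _
    have h5 : 0 ≤ ∏ i, |c i (T i)| := Finset.prod_nonneg fun i _ => abs_nonneg _
    calc (∏ i, |c i (T i)|) * |(Matrix.of fun i j => G (T i) j).det| ≤
        1 * |(Matrix.of fun i j => G (T i) j).det| :=
          mul_le_mul_of_nonneg_right h4 (abs_nonneg _)
      _ ≤ D := by rw [one_mul]; exact hD T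
  refine (Finset.sum_le_sum h3).trans (le_of_eq ?_)
  rw [Finset.sum_const, Finset.card_univ, Fintype.card_fun, nsmul_eq_mul]
  push_cast
  ring

section main

variable (F : α → MvPolynomial ν ℝ) (g : κ → MvPolynomial ν ℝ) (w : α → ℝ) (S : ν → α)
  (ρ R₀ M : ℝ)

/-- The number of the conditions. -/
def nc (ν α κ : Type) [Fintype ν] [Fintype α] [Fintype κ] : ℕ :=
  Fintype.card α + Fintype.card ν + 1 + Fintype.card κ ^ Fintype.card ν

/-- The conditions, before normalisation. -/
noncomputable def Po : MvPolynomial (ν ⊕ Unit) ℝ :=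
  ∑ a, (rename Sum.inl (F a) - C (w a)) ^ 2 + ∑ j, (C (1 / R₀) * X (Sum.inl j)) ^ 2 +
    (C (1 / M) * X (Sum.inr ())) ^ 2 +
    C (8 * (nc ν α κ : ℝ)) * (X (Sum.inr ()) * rename Sum.inl (dp F S) - 1) ^ 2 +
    ∑ T : ν → κ, (C (1 / ρ) * (X (Sum.inr ()) * rename Sum.inl (dp g T))) ^ 2

/-- The polynomial of the region. -/
noncomputable def Pr : MvPolynomial (ν ⊕ Unit) ℝ := C (1 / (nc ν α κ : ℝ)) * Po F g w S ρ R₀ M

theorem eval_Po (y : ν ⊕ Unit → ℝ) : eval y (Po F g w S ρ R₀ M) =
    ∑ a, (eval (fun j => y (Sum.inl j)) (F a) - w a) ^ 2 + ∑ j, (1 / R₀ * y (Sum.inl j)) ^ 2 +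
    (1 / M * y (Sum.inr ())) ^ 2 +
    8 * (nc ν α κ : ℝ) * (y (Sum.inr ()) * eval (fun j => y (Sum.inl j)) (dp F S) - 1) ^ 2 +
    ∑ T : ν → κ, (1 / ρ * (y (Sum.inr ()) * eval (fun j => y (Sum.inl j)) (dp g T))) ^ 2 := by
  unfold Po
  simp only [map_add, map_sum, map_pow, map_sub, map_mul, eval_C, eval_X, eval_up, map_one]

theorem nc_pos : (1 : ℝ) ≤ (nc ν α κ : ℝ) := by
  have : 1 ≤ nc ν α κ := by
    unfold nc
    omega
  exact_mod_cast this

theorem eval_Pr (y : ν ⊕ Unit → ℝ) :
    eval y (Pr F g w S ρ R₀ M) = 1 / (nc ν α κ : ℝ) * eval y (Po F g w S ρ R₀ M) := by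
  unfold Pr
  rw [map_mul, eval_C]

theorem totalDegree_Pr_le {d : ℕ} (hF : ∀ a, (F a).totalDegree ≤ d)
    (hg : ∀ b, (g b).totalDegree ≤ d) :
    (Pr F g w S ρ R₀ M).totalDegree ≤ 2 * ((Fintype.card ν + 1) * d + 1) := by
  set e := (Fintype.card ν + 1) * d + 1 with he
  have h0 : Fintype.card ν * d + 1 ≤ e := by
    rw [he]
    nlinarith
  have hd1 : d ≤ e := by
    rw [he]
    nlinarith
  have hdF : (dp F S).totalDegree ≤ Fintype.card ν * d := totalDegree_dp_le hF S
  have hsq : ∀ q : MvPolynomial (ν ⊕ Unit) ℝ, q.totalDegree ≤ e → (q ^ 2).totalDegree ≤ 2 * e :=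
    fun q hq => (totalDegree_pow _ _).trans (Nat.mul_le_mul_left 2 hq)
  have hC : ∀ (c : ℝ) (q : MvPolynomial (ν ⊕ Unit) ℝ) (n : ℕ), q.totalDegree ≤ n →
      (C c * q).totalDegree ≤ n := by
    intro c q n hq
    refine (totalDegree_mul _ _).trans ?_
    rw [totalDegree_C, zero_add]
    exact hq
  have hup : ∀ q : MvPolynomial ν ℝ, (rename (Sum.inl : ν → ν ⊕ Unit) q).totalDegree ≤
      q.totalDegree := fun q => totalDegree_rename_le _ _
  have hX : ∀ s : ν ⊕ Unit, (X s : MvPolynomial (ν ⊕ Unit) ℝ).totalDegree ≤ 1 := fun s => by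
    rw [totalDegree_X]
  unfold Pr Po
  refine hC _ _ _ ?_
  refine (totalDegree_add _ _).trans (max_le ((totalDegree_add _ _).trans (max_le
    ((totalDegree_add _ _).trans (max_le ((totalDegree_add _ _).trans (max_le ?_ ?_)) ?_)) ?_)) ?_)
  · refine totalDegree_finsetSum_le fun a _ => hsq _ ?_
    refine (totalDegree_sub _ _).trans (max_le ((hup _).trans ((hF a).trans hd1)) ?_)
    rw [totalDegree_C]
    exact Nat.zero_le _
  · refine totalDegree_finsetSum_le fun j _ => hsq _ (hC _ _ _ ((hX _).trans ?_))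
    omega
  · refine hsq _ (hC _ _ _ ((hX _).trans ?_))
    omega
  · refine hC _ _ _ (hsq _ ?_)
    refine (totalDegree_sub _ _).trans (max_le ?_ ?_)
    · refine (totalDegree_mul _ _).trans ?_
      have := (hup (dp F S)).trans hdF
      have := hX (Sum.inr ())
      omega
    · rw [totalDegree_one]
      exact Nat.zero_le _
  · refine totalDegree_finsetSum_le fun T _ => hsq _ (hC _ _ _ ?_)
    refine (totalDegree_mul _ _).trans ?_
    have := (hup (dp g T)).trans (totalDegree_dp_le hg T)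
    have := hX (Sum.inr ())
    omega

variable {F g w S ρ R₀ M}

/-- The conditions in the region. -/
theorem reg_facts (hρ : 0 < ρ) {y : ν ⊕ Unit → ℝ} (hy : eval y (Pr F g w S ρ R₀ M) < 2) :
    (∀ a, |eval (fun j => y (Sum.inl j)) (F a) - w a| ≤ 2 * (nc ν α κ : ℝ)) ∧
    (∀ j, |1 / R₀ * y (Sum.inl j)| ≤ 2 * (nc ν α κ : ℝ)) ∧
    |1 / M * y (Sum.inr ())| ≤ 2 * (nc ν α κ : ℝ) ∧
    |y (Sum.inr ()) * eval (fun j => y (Sum.inl j)) (dp F S) - 1| ≤ 1 / 2 ∧
    ∀ T : ν → κ, |y (Sum.inr ()) * eval (fun j => y (Sum.inl j)) (dp g T)| ≤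
      2 * (nc ν α κ : ℝ) * ρ := by
  have hn := nc_pos (ν := ν) (α := α) (κ := κ)
  set n : ℝ := (nc ν α κ : ℝ) with hndef
  have h0 : eval y (Po F g w S ρ R₀ M) < 2 * n := by
    rw [eval_Pr, one_div, ← hndef, inv_mul_lt_iff₀ (by linarith)] at hy
    linarith
  rw [eval_Po, ← hndef] at h0
  have s1 : 0 ≤ ∑ a, (eval (fun j => y (Sum.inl j)) (F a) - w a) ^ 2 :=
    Finset.sum_nonneg fun _ _ => sq_nonneg _
  have s2 : 0 ≤ ∑ j, (1 / R₀ * y (Sum.inl j)) ^ 2 := Finset.sum_nonneg fun _ _ => sq_nonneg _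
  have s3 : 0 ≤ (1 / M * y (Sum.inr ())) ^ 2 := sq_nonneg _
  have s4 : 0 ≤ 8 * n * (y (Sum.inr ()) * eval (fun j => y (Sum.inl j)) (dp F S) - 1) ^ 2 :=
    mul_nonneg (by linarith) (sq_nonneg _)
  have s5 : 0 ≤ ∑ T : ν → κ,
      (1 / ρ * (y (Sum.inr ()) * eval (fun j => y (Sum.inl j)) (dp g T))) ^ 2 :=
    Finset.sum_nonneg fun _ _ => sq_nonneg _
  have hroot : ∀ x : ℝ, x ^ 2 ≤ 2 * n → |x| ≤ 2 * n := by
    intro x hx
    refine abs_le_of_sq_le_sq ?_ (by linarith)
    nlinarith
  refine ⟨fun a => hroot _ ?_, fun j => hroot _ ?_, hroot _ (by linarith), ?_, fun T => ?_⟩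
  · have := Finset.single_le_sum (f := fun a => (eval (fun j => y (Sum.inl j)) (F a) - w a) ^ 2)
      (fun a _ => sq_nonneg _) (Finset.mem_univ a)
    linarith
  · have := Finset.single_le_sum (f := fun j => (1 / R₀ * y (Sum.inl j)) ^ 2)
      (fun a _ => sq_nonneg _) (Finset.mem_univ j)
    linarith
  · refine abs_le_of_sq_le_sq ?_ (by norm_num)
    have h1 : 8 * n * (y (Sum.inr ()) * eval (fun j => y (Sum.inl j)) (dp F S) - 1) ^ 2 < 2 * n := by
      linarith
    nlinarith
  · have h1 := Finset.single_le_sum (f := fun T : ν → κ =>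
      (1 / ρ * (y (Sum.inr ()) * eval (fun j => y (Sum.inl j)) (dp g T))) ^ 2)
      (fun a _ => sq_nonneg _) (Finset.mem_univ T)
    have h2 := hroot _ (by linarith :
      (1 / ρ * (y (Sum.inr ()) * eval (fun j => y (Sum.inl j)) (dp g T))) ^ 2 ≤ 2 * n)
    rw [abs_mul, abs_of_pos (by positivity : 0 < 1 / ρ), one_div, inv_mul_le_iff₀ hρ] at h2
    linarith

/-- The matrix `Q` and its minors. -/
theorem exists_Q (c : α → κ → ℝ) (hc : ∀ a b, |c a b| ≤ 1)
    (hFg : ∀ a x j, eval x (pderiv j (F a)) = ∑ b, c a b * eval x (pderiv j (g b))) (hρ : 0 < ρ)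
    {y : ν ⊕ Unit → ℝ} (hy : eval y (Pr F g w S ρ R₀ M) < 2) :
    ∃ Q : κ → ν → ℝ, (∀ a l, eval y (pderiv l (rename Sum.inl (g a) : MvPolynomial (ν ⊕ Unit) ℝ)) =
      ∑ i, Q a i * eval y (pderiv l (rename Sum.inl (F (S i)) - C (w (S i))))) ∧
      ∀ ψ : ν → ν ⊕ κ, |(Matrix.of (fun i j => ext Q (ψ i) j)).det| ≤
        4 * (nc ν α κ : ℝ) * (Fintype.card κ : ℝ) ^ Fintype.card ν * ρ := by
  classical
  obtain ⟨-, -, -, h4, h5⟩ := reg_facts hρ hy
  set x : ν → ℝ := fun j => y (Sum.inl j) with hx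
  set z : ℝ := y (Sum.inr ()) with hz
  set n : ℝ := (nc ν α κ : ℝ) with hndef
  have hn := nc_pos (ν := ν) (α := α) (κ := κ)
  set A : Matrix ν ν ℝ := Matrix.of fun i j => eval x (pderiv j (F (S i))) with hA
  have hdA : eval x (dp F S) = A.det := eval_dp F S x
  have hzA : 1 / 2 ≤ |z| * |A.det| := by
    rw [hdA] at h4
    have h6 := abs_le.1 h4
    rw [← abs_mul]
    refine le_trans ?_ (le_abs_self _)
    linarith [h6.1]
  have hA0 : A.det ≠ 0 := by
    intro h
    rw [h, abs_zero, mul_zero] at hzA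
    linarith
  have hAu : IsUnit A.det := isUnit_iff_ne_zero.2 hA0
  set G : κ → ν → ℝ := fun b j => eval x (pderiv j (g b)) with hG
  refine ⟨fun b i => ∑ j, G b j * A⁻¹ j i, ?_, ?_⟩
  · intro b l
    rcases l with j | u
    · rw [pd_inl, eval_up]
      have h6 : ∀ i, eval y (pderiv (Sum.inl j) (rename Sum.inl (F (S i)) - C (w (S i)))) =
          A i j := by
        intro i
        rw [map_sub, pderiv_C, sub_zero, pd_inl, eval_up]
        rfl
      have h7 : ∑ i, (∑ j, G b j * A⁻¹ j i) * A i j = G b j := by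
        have h8 : (A⁻¹ * A) = 1 := Matrix.nonsing_inv_mul A hAu
        calc ∑ i, (∑ j', G b j' * A⁻¹ j' i) * A i j
            = ∑ j', G b j' * ∑ i, A⁻¹ j' i * A i j := by
              simp only [Finset.sum_mul, Finset.mul_sum]
              rw [Finset.sum_comm]
              refine Finset.sum_congr rfl fun j' _ => Finset.sum_congr rfl fun i _ => ?_
              ring
          _ = ∑ j', G b j' * (1 : Matrix ν ν ℝ) j' j := by
              refine Finset.sum_congr rfl fun j' _ => ?_
              rw [← h8, Matrix.mul_apply]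
          _ = G b j := by
              simp [Matrix.one_apply]
      rw [Finset.sum_congr rfl fun i _ => by rw [h6 i], h7]
    · rw [pd_inr, map_zero]
      symm
      refine Finset.sum_eq_zero fun i _ => ?_
      rw [map_sub, pderiv_C, sub_zero, pd_inr, map_zero, mul_zero]
  · intro ψ
    -- the matrix is a product
    set c' : ν → κ → ℝ := fun i b => Sum.rec (motive := fun _ => ℝ) (fun l => c (S l) b)
      (fun b' => if b = b' then 1 else 0) (ψ i) with hc'
    have hc'1 : ∀ i b, |c' i b| ≤ 1 := by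
      intro i b
      show |Sum.rec (motive := fun _ => ℝ) (fun l => c (S l) b)
        (fun b' => if b = b' then 1 else 0) (ψ i)| ≤ 1
      rcases ψ i with l | b'
      · exact hc _ _
      · show |if b = b' then (1 : ℝ) else 0| ≤ 1
        split_ifs
        · rw [abs_one]
        · rw [abs_zero]
          exact zero_le_one
    have hBA : (Matrix.of (fun i j => ext (fun b i => ∑ j, G b j * A⁻¹ j i) (ψ i) j)) =
        (Matrix.of fun i j => ∑ b, c' i b * G b j) * A⁻¹ := by
      ext i j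
      rw [Matrix.mul_apply]
      show ext _ (ψ i) j = ∑ l, (∑ b, c' i b * G b l) * A⁻¹ l j
      have hcase : ∀ s : ν ⊕ κ, ext (fun b i => ∑ j, G b j * A⁻¹ j i) s j =
          ∑ l, (∑ b, (Sum.rec (motive := fun _ => ℝ) (fun l => c (S l) b)
            (fun b' => if b = b' then 1 else 0) s) * G b l) * A⁻¹ l j := by
        intro s
        rcases s with i' | b'
        · show Pi.single (M := fun _ => ℝ) i' 1 j = ∑ l, (∑ b, c (S i') b * G b l) * A⁻¹ l j
          have h8 : (A * A⁻¹) = 1 := Matrix.mul_nonsing_inv A hAu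
          have h9 : ∀ l, ∑ b, c (S i') b * G b l = A i' l := fun l => (hFg (S i') x l).symm
          simp only [h9]
          rw [← Matrix.mul_apply, h8, Matrix.one_apply, Pi.single_apply]
          by_cases h : i' = j
          · simp [h]
          · simp [h, Ne.symm h]
        · show ∑ l, G b' l * A⁻¹ l j = ∑ l, (∑ b, (if b = b' then (1 : ℝ) else 0) * G b l) * A⁻¹ l j
          refine Finset.sum_congr rfl fun l _ => ?_
          congr 1
          simp
      exact hcase (ψ i)
    rw [hBA, Matrix.det_mul, abs_mul, Matrix.det_nonsing_inv, Ring.inverse_eq_inv', abs_inv]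
    have h6 : |(Matrix.of fun i j => ∑ b, c' i b * G b j).det| ≤
        (Fintype.card κ : ℝ) ^ Fintype.card ν * (2 * n * ρ / |z|) := by
      refine det_comb c' G hc'1 fun T => ?_
      have h7 := h5 T
      rw [eval_dp, abs_mul] at h7
      have hz0 : 0 < |z| := by
        rcases (abs_nonneg z).lt_or_eq with h | h
        · exact h
        · rw [← h, zero_mul] at hzA
          linarith
      rw [le_div_iff₀ hz0]
      linarith [mul_comm |z| |(Matrix.of fun i j => G (T i) j).det|]
    have hz0 : 0 < |z| := by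
      rcases (abs_nonneg z).lt_or_eq with h | h
      · exact h
      · rw [← h, zero_mul] at hzA
        linarith
    have hdet0 : 0 < |A.det| := abs_pos.2 hA0
    have h7 : |A.det|⁻¹ ≤ 2 * |z| := by
      rw [inv_le_iff_one_le_mul₀ hdet0]
      linarith
    have h8 : 0 ≤ (Fintype.card κ : ℝ) ^ Fintype.card ν * (2 * n * ρ / |z|) :=
      mul_nonneg (by positivity) (div_nonneg (by positivity) hz0.le)
    refine (mul_le_mul h6 h7 (inv_nonneg.2 hdet0.le) h8).trans (le_of_eq ?_)
    field_simp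
    ring

theorem Pr_nonneg (y : ν ⊕ Unit → ℝ) : 0 ≤ eval y (Pr F g w S ρ R₀ M) := by
  have hn := nc_pos (ν := ν) (α := α) (κ := κ)
  rw [eval_Pr, eval_Po]
  refine mul_nonneg (by rw [one_div]; exact inv_nonneg.2 (by linarith)) ?_
  refine add_nonneg (add_nonneg (add_nonneg (add_nonneg ?_ ?_) (sq_nonneg _)) ?_) ?_
  · exact Finset.sum_nonneg fun _ _ => sq_nonneg _
  · exact Finset.sum_nonneg fun _ _ => sq_nonneg _
  · exact mul_nonneg (by linarith) (sq_nonneg _)
  · exact Finset.sum_nonneg fun _ _ => sq_nonneg _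

/-- The constant of the count with a given minor. -/
noncomputable def cC (m A N d : ℕ) : ℝ :=
  tubC (m + 1) N m (2 * ((m + 1) * d + 1)) (2 * ((A + m + 1 + N ^ m : ℕ) : ℝ)) *
    (4 * ((A + m + 1 + N ^ m : ℕ) : ℝ) * (N : ℝ) ^ m)

theorem cC_nonneg (m A N d : ℕ) : 0 ≤ cC m A N d := by
  unfold cC
  exact mul_nonneg (tubC_nonneg _ _ _ _ (by positivity)) (by positivity)

/-- The count with a given minor, separated points. -/
theorem cnt_fix {d : ℕ} (hF : ∀ a, (F a).totalDegree ≤ d) (hg : ∀ b, (g b).totalDegree ≤ d)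
    (c : α → κ → ℝ) (hc : ∀ a b, |c a b| ≤ 1)
    (hFg : ∀ a x j, eval x (pderiv j (F a)) = ∑ b, c a b * eval x (pderiv j (g b))) (hρ : 0 < ρ)
    (Z : Finset (ν → ℝ)) (hZ1 : ∀ x ∈ Z, ∀ a, |eval x (F a) - w a| ≤ 1)
    (hZ2 : ∀ x ∈ Z, eval x (dp F S) ≠ 0)
    (hZ3 : ∀ x ∈ Z, ∀ T : ν → κ, |eval x (dp g T)| ≤ ρ * |eval x (dp F S)|)
    (hsep : ∀ x ∈ Z, ∀ x' ∈ Z, x ≠ x' → ∃ b, 1 ≤ |eval x (g b) - eval x' (g b)|) :
    (Z.card : ℝ) ≤ cC (Fintype.card ν) (Fintype.card α) (Fintype.card κ) d * ρ := by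
  classical
  set R₁ : ℝ := ∑ x ∈ Z, ‖x‖ + 1 with hR₁
  set M₁ : ℝ := ∑ x ∈ Z, |(eval x (dp F S))⁻¹| + 1 with hM₁
  have hR0 : 0 < R₁ := by
    have : 0 ≤ ∑ x ∈ Z, ‖x‖ := Finset.sum_nonneg fun _ _ => norm_nonneg _
    linarith
  have hM0 : 0 < M₁ := by
    have : 0 ≤ ∑ x ∈ Z, |(eval x (dp F S))⁻¹| := Finset.sum_nonneg fun _ _ => abs_nonneg _
    linarith
  set n : ℝ := (nc ν α κ : ℝ) with hndef
  have hn := nc_pos (ν := ν) (α := α) (κ := κ)
  set u : (ν → ℝ) → (ν ⊕ Unit → ℝ) := fun x e => Sum.rec (motive := fun _ => ℝ) x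
    (fun _ => (eval x (dp F S))⁻¹) e with hu
  have hui : Function.Injective u := by
    intro x x' h
    funext j
    exact congrFun h (Sum.inl j)
  have hcard : (Z.image u).card = Z.card := Finset.card_image_of_injective Z hui
  have hup : ∀ x, (fun j => u x (Sum.inl j)) = x := fun x => rfl
  have h1 := tube (ι := ν ⊕ Unit) (κ := κ) (μ := ν) (d := 2 * ((Fintype.card ν + 1) * d + 1))
    (P := Pr F g w S ρ R₁ M₁) (f := fun i => rename Sum.inl (F (S i)) - C (w (S i)))
    (g := fun b => rename Sum.inl (g b)) (totalDegree_Pr_le F g w S ρ R₁ M₁ hF hg)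
    (fun b => (totalDegree_rename_le _ _).trans ((hg b).trans (by nlinarith)))
    (fun i => by
      refine (totalDegree_sub _ _).trans (max_le ((totalDegree_rename_le _ _).trans
        ((hF _).trans (by nlinarith))) ?_)
      rw [totalDegree_C]
      exact Nat.zero_le _)
    (fun y => Pr_nonneg y)
    (R := 2 * n * (R₁ + M₁)) (fun y hy => by
      obtain ⟨-, h2, h3, -, -⟩ := reg_facts hρ hy
      rw [pi_norm_le_iff_of_nonneg (mul_nonneg (by linarith) (by linarith))]
      rintro (j | t)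
      · have h4 := h2 j
        rw [abs_mul, abs_of_pos (one_div_pos.2 hR0), one_div,
          inv_mul_le_iff₀ hR0, ← hndef] at h4
        rw [Real.norm_eq_abs]
        nlinarith
      · have h4 := h3
        rw [abs_mul, abs_of_pos (one_div_pos.2 hM0), one_div,
          inv_mul_le_iff₀ hM0, ← hndef] at h4
        rw [Real.norm_eq_abs]
        have : |y (Sum.inr t)| = |y (Sum.inr ())| := rfl
        rw [this]
        nlinarith)
    (B := 2 * n) (by linarith) (fun y hy i => by
      obtain ⟨h2, -⟩ := reg_facts hρ hy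
      rw [map_sub, eval_C, eval_up]
      exact h2 (S i))
    (k := 4 * n * (Fintype.card κ : ℝ) ^ Fintype.card ν * ρ)
    (mul_nonneg (mul_nonneg (by linarith) (pow_nonneg (Nat.cast_nonneg _) _)) hρ.le)
    (fun y hy => exists_Q c hc hFg hρ hy)
    (Z.image u) (fun y hy => by
      obtain ⟨x, hx, rfl⟩ := Finset.mem_image.1 hy
      rw [eval_Pr, eval_Po, hup, one_div, ← hndef, inv_mul_le_iff₀ (by linarith), mul_one]
      have e1 : u x (Sum.inr ()) = (eval x (dp F S))⁻¹ := rfl
      have e2 : ∀ j, u x (Sum.inl j) = x j := fun _ => rfl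
      have hD := hZ2 x hx
      have t1 : ∑ a, (eval x (F a) - w a) ^ 2 ≤ (Fintype.card α : ℝ) := by
        have : ∀ a ∈ (univ : Finset α), (eval x (F a) - w a) ^ 2 ≤ 1 := fun a _ => by
          have := hZ1 x hx a
          rw [← sq_abs]
          nlinarith [abs_nonneg (eval x (F a) - w a)]
        refine (Finset.sum_le_sum this).trans (le_of_eq ?_)
        rw [Finset.sum_const, Finset.card_univ, nsmul_eq_mul, mul_one]
      have t2 : ∑ j, (1 / R₁ * u x (Sum.inl j)) ^ 2 ≤ (Fintype.card ν : ℝ) := by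
        have : ∀ j ∈ (univ : Finset ν), (1 / R₁ * u x (Sum.inl j)) ^ 2 ≤ 1 := fun j _ => by
          rw [e2, ← sq_abs, abs_mul, abs_of_pos (one_div_pos.2 hR0)]
          have h3 : |x j| ≤ R₁ := by
            have h4 := norm_le_pi_norm x j
            rw [Real.norm_eq_abs] at h4
            have h5 := Finset.single_le_sum (f := fun x : ν → ℝ => ‖x‖)
              (fun a _ => norm_nonneg _) hx
            linarith
          have h4 : 1 / R₁ * |x j| ≤ 1 := by
            rw [one_div, inv_mul_le_iff₀ hR0]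
            linarith
          have h5 : 0 ≤ 1 / R₁ * |x j| := mul_nonneg (one_div_pos.2 hR0).le (abs_nonneg _)
          nlinarith
        refine (Finset.sum_le_sum this).trans (le_of_eq ?_)
        rw [Finset.sum_const, Finset.card_univ, nsmul_eq_mul, mul_one]
      have t3 : (1 / M₁ * u x (Sum.inr ())) ^ 2 ≤ 1 := by
        rw [e1, ← sq_abs, abs_mul, abs_of_pos (one_div_pos.2 hM0)]
        have h5 := Finset.single_le_sum (f := fun x : ν → ℝ => |(eval x (dp F S))⁻¹|)
          (fun a _ => abs_nonneg _) hx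
        have h4 : 1 / M₁ * |(eval x (dp F S))⁻¹| ≤ 1 := by
          rw [one_div, inv_mul_le_iff₀ hM0]
          linarith
        have h6 : 0 ≤ 1 / M₁ * |(eval x (dp F S))⁻¹| :=
          mul_nonneg (one_div_pos.2 hM0).le (abs_nonneg _)
        nlinarith
      have t4 : (u x (Sum.inr ()) * eval x (dp F S) - 1) ^ 2 = 0 := by
        rw [e1, inv_mul_cancel₀ hD, sub_self]
        norm_num
      have t5 : ∑ T : ν → κ, (1 / ρ * (u x (Sum.inr ()) * eval x (dp g T))) ^ 2 ≤
          ((Fintype.card κ ^ Fintype.card ν : ℕ) : ℝ) := by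
        have : ∀ T ∈ (univ : Finset (ν → κ)),
            (1 / ρ * (u x (Sum.inr ()) * eval x (dp g T))) ^ 2 ≤ 1 := fun T _ => by
          rw [e1, ← sq_abs, abs_mul, abs_mul, abs_of_pos (one_div_pos.2 hρ), abs_inv]
          have h3 := hZ3 x hx T
          have h4 : 0 < |eval x (dp F S)| := abs_pos.2 hD
          have h5 : 1 / ρ * (|eval x (dp F S)|⁻¹ * |eval x (dp g T)|) ≤ 1 := by
            rw [one_div, inv_mul_le_iff₀ hρ, inv_mul_le_iff₀ h4]
            linarith
          have h6 : 0 ≤ 1 / ρ * (|eval x (dp F S)|⁻¹ * |eval x (dp g T)|) :=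
            mul_nonneg (one_div_pos.2 hρ).le (mul_nonneg (inv_nonneg.2 (abs_nonneg _))
              (abs_nonneg _))
          nlinarith
        refine (Finset.sum_le_sum this).trans (le_of_eq ?_)
        rw [Finset.sum_const, Finset.card_univ, Fintype.card_fun, nsmul_eq_mul, mul_one]
      rw [t4]
      have hnv : n = (Fintype.card α : ℝ) + Fintype.card ν + 1 +
          ((Fintype.card κ ^ Fintype.card ν : ℕ) : ℝ) := by
        rw [hndef]
        unfold nc
        push_cast
        ring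
      rw [hnv]
      nlinarith)
    (fun y hy y' hy' hne => by
      obtain ⟨x, hx, rfl⟩ := Finset.mem_image.1 hy
      obtain ⟨x', hx', rfl⟩ := Finset.mem_image.1 hy'
      obtain ⟨b, hb⟩ := hsep x hx x' hx' (fun h => hne (by rw [h]))
      refine ⟨b, ?_⟩
      rw [eval_up, eval_up, hup, hup]
      exact hb)
  rw [hcard] at h1
  refine h1.trans (le_of_eq ?_)
  unfold cC
  have hc1 : Fintype.card (ν ⊕ Unit) = Fintype.card ν + 1 := by
    rw [Fintype.card_sum, Fintype.card_unit]
  rw [hc1]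
  have hc2 : n = ((Fintype.card α + Fintype.card ν + 1 +
      Fintype.card κ ^ Fintype.card ν : ℕ) : ℝ) := rfl
  rw [hc2]
  ring

end main

end Pool.TUBE
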