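import Pool.Agent.H16.TUBE.Cells
import Pool.Agent.H32.Dense.EntX
import Pool.Agent.H90.STK.Defs

/-!
# The number of cells: entropy form
-/

set_option autoImplicit false
set_option linter.unusedSectionVars false

namespace Pool.TUBE

open MvPolynomial Finset Real
open Pool.Agent.H49.Ent Pool.Agent.H32.Dense Pool.STK

variable {ν α κ : Type} [Fintype ν] [DecidableEq ν] [Fintype α] [DecidableEq α] [Fintype κ]
  [DecidableEq κ]

/-- The largest minor. -/
noncomputable def jm (F : α → MvPolynomial ν ℝ) (x : ν → ℝ) : ℝ := ⨆ S : ν → α, |eval x (dp F S)|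

theorem le_jm (F : α → MvPolynomial ν ℝ) (x : ν → ℝ) (S : ν → α) : |eval x (dp F S)| ≤ jm F x :=
  le_ciSup (f := fun S : ν → α => |eval x (dp F S)|) (Set.finite_range _).bddAbove S

theorem jm_nonneg (F : α → MvPolynomial ν ℝ) (x : ν → ℝ) : 0 ≤ jm F x :=
  Real.iSup_nonneg fun _ => abs_nonneg _

theorem exists_jm {F : α → MvPolynomial ν ℝ} {x : ν → ℝ} (h : 0 < jm F x) :
    ∃ S : ν → α, jm F x = |eval x (dp F S)| := by
  by_cases hne : Nonempty (ν → α)
  · obtain ⟨S, hS⟩ := exists_eq_ciSup_of_finite (f := fun S : ν → α => |eval x (dp F S)|)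
    exact ⟨S, hS.symm⟩
  · rw [not_nonempty_iff] at hne
    unfold jm at h
    rw [Real.iSup_of_isEmpty] at h
    exact absurd h (lt_irrefl _)

theorem jm_le {F : α → MvPolynomial ν ℝ} {x : ν → ℝ} {c : ℝ} (hc : 0 ≤ c)
    (h : ∀ S : ν → α, |eval x (dp F S)| ≤ c) : jm F x ≤ c := Real.iSup_le h hc

/-- The minors of `F` are bounded by those of `g`. -/
theorem jm_comb {F : α → MvPolynomial ν ℝ} {g : κ → MvPolynomial ν ℝ} (c : α → κ → ℝ)
    (hc : ∀ a b, |c a b| ≤ 1) {x : ν → ℝ}
    (hFg : ∀ a j, eval x (pderiv j (F a)) = ∑ b, c a b * eval x (pderiv j (g b))) :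
    jm F x ≤ (Fintype.card κ : ℝ) ^ Fintype.card ν * jm g x := by
  refine jm_le (mul_nonneg (by positivity) (jm_nonneg g x)) fun S => ?_
  rw [eval_dp]
  have h1 : (Matrix.of fun i j => eval x (pderiv j (F (S i)))) =
      Matrix.of fun i j => ∑ b, c (S i) b * (fun b j => eval x (pderiv j (g b))) b j := by
    ext i j
    exact hFg (S i) j
  rw [h1]
  refine det_comb (fun i b => c (S i) b) _ (fun i b => hc _ _) fun T => ?_
  have h2 := le_jm g x T
  rw [eval_dp] at h2
  exact h2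

/-! ### The dyadic value of the ratio -/

/-- The dyadic value. -/
noncomputable def rf (u : ℝ) : ℕ := ⌈Real.logb 2 u⌉₊

theorem le_rf {u : ℝ} (hu : 0 < u) : u ≤ 2 ^ rf u := by
  have h1 : Real.logb 2 u ≤ (rf u : ℝ) := Nat.le_ceil _
  have h2 := (Real.logb_le_iff_le_rpow (by norm_num : (1 : ℝ) < 2) hu).1 h1
  rwa [Real.rpow_natCast] at h2

theorem rf_le {u : ℝ} {k : ℕ} (hu : 0 < u) (hk : u ≤ 2 ^ k) : rf u ≤ k := by
  unfold rf
  rw [Nat.ceil_le, Real.logb_le_iff_le_rpow (by norm_num) hu, Real.rpow_natCast]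
  exact hk

theorem rf_log {u A : ℝ} (hu : 0 < u) (hA : 1 ≤ A) (hA2 : 1 ≤ A * u) :
    (rf u : ℝ) * Real.log 2 ≤ Real.log u + Real.log (2 * A) := by
  have hl2 : 0 < Real.log 2 := Real.log_pos (by norm_num)
  have h0 : 0 ≤ Real.log u + Real.log A := by
    rw [← Real.log_mul hu.ne' (by linarith)]
    exact Real.log_nonneg (by linarith [mul_comm A u])
  have hlA : 0 ≤ Real.log A := Real.log_nonneg hA
  rw [Real.log_mul (by norm_num) (by linarith)]
  rcases le_or_gt (Real.logb 2 u) 0 with h | h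
  · have h1 : rf u = 0 := Nat.ceil_eq_zero.2 h
    rw [h1, Nat.cast_zero, zero_mul]
    linarith
  · have h1 : (rf u : ℝ) < Real.logb 2 u + 1 := Nat.ceil_lt_add_one h.le
    have h2 : Real.logb 2 u * Real.log 2 = Real.log u := by
      unfold Real.logb
      field_simp
    nlinarith

/-- The constant of the entropy form. -/
noncomputable def eC (m A N d : ℕ) : ℝ :=
  Real.log (cnC m A N d + 1) + Real.log (2 * ((N : ℝ) ^ m + 1))

theorem eC_nonneg (m A N d : ℕ) : 0 ≤ eC m A N d := by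
  unfold eC
  have h1 := cnC_nonneg m A N d
  have h2 : (0 : ℝ) ≤ (N : ℝ) ^ m := by positivity
  exact add_nonneg (Real.log_nonneg (by linarith)) (Real.log_nonneg (by linarith))

/-- **(CNT), entropy form.** -/
theorem cnt_ent {Ω B : Type} [Fintype Ω] {p : Ω → ℝ} (hp : IsLaw p) {d k : ℕ} (b : Ω → B)
    (x : Ω → ν → ℝ) (F : B → α → MvPolynomial ν ℝ) (g : B → κ → MvPolynomial ν ℝ)
    (w : B → α → ℝ) (c : B → α → κ → ℝ) (hF : ∀ y a, (F y a).totalDegree ≤ d)
    (hg : ∀ y b, (g y b).totalDegree ≤ d) (hc : ∀ y a b, |c y a b| ≤ 1)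
    (hFg : ∀ y a x j, eval x (pderiv j (F y a)) = ∑ b, c y a b * eval x (pderiv j (g y b)))
    (hx1 : ∀ ω, 0 < p ω → ∀ a, |eval (x ω) (F (b ω) a) - w (b ω) a| ≤ 1)
    (hx2 : ∀ ω, 0 < p ω → 0 < jm (F (b ω)) (x ω))
    (hx3 : ∀ ω, 0 < p ω → jm (g (b ω)) (x ω) ≤ 2 ^ k * jm (F (b ω)) (x ω)) :
    CH p (fun ω => cell (g (b ω)) (x ω)) b ≤
      Ex p (fun ω => Real.log (jm (g (b ω)) (x ω) / jm (F (b ω)) (x ω))) + Real.log (k + 1) +
        eC (Fintype.card ν) (Fintype.card α) (Fintype.card κ) d := by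
  classical
  set u : Ω → ℝ := fun ω => jm (g (b ω)) (x ω) / jm (F (b ω)) (x ω) with hu
  set r : Ω → ℕ := fun ω => rf (u ω) with hr
  set Nm : ℝ := (Fintype.card κ : ℝ) ^ Fintype.card ν + 1 with hNm
  have hN0 : (0 : ℝ) ≤ (Fintype.card κ : ℝ) ^ Fintype.card ν := by positivity
  have hcomb : ∀ ω, 0 < p ω → jm (F (b ω)) (x ω) ≤
      (Fintype.card κ : ℝ) ^ Fintype.card ν * jm (g (b ω)) (x ω) := fun ω _ =>
    jm_comb (c (b ω)) (hc _) (fun a j => hFg (b ω) a (x ω) j)
  have hg0 : ∀ ω, 0 < p ω → 0 < jm (g (b ω)) (x ω) := by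
    intro ω hω
    rcases (jm_nonneg (g (b ω)) (x ω)).lt_or_eq with h | h
    · exact h
    · have h1 := hcomb ω hω
      rw [← h, mul_zero] at h1
      exact absurd (hx2 ω hω) (not_lt.2 h1)
  have hupos : ∀ ω, 0 < p ω → 0 < u ω := fun ω hω => div_pos (hg0 ω hω) (hx2 ω hω)
  have hrk : ∀ ω, 0 < p ω → r ω ≤ k := by
    intro ω hω
    refine rf_le (hupos ω hω) ?_
    rw [hu, div_le_iff₀ (hx2 ω hω)]
    exact hx3 ω hω
  -- the finite sets of the values
  set Y : Ω → B × ℕ := fun ω => (b ω, r ω) with hY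
  set Sf : B × ℕ → Finset (κ → ℤ) := fun y =>
    ((univ : Finset Ω).filter fun ω => 0 < p ω ∧ Y ω = y).image
      (fun ω => cell (g (b ω)) (x ω)) with hSf
  have hcardS : ∀ ω, 0 < p ω → ((Sf (Y ω)).card : ℝ) ≤
      cnC (Fintype.card ν) (Fintype.card α) (Fintype.card κ) d * 2 ^ r ω := by
    intro ω hω
    -- representatives
    have hex : ∀ s ∈ Sf (Y ω), ∃ ω', 0 < p ω' ∧ Y ω' = Y ω ∧ cell (g (b ω')) (x ω') = s := by
      intro s hs
      obtain ⟨ω', h1, h2⟩ := Finset.mem_image.1 hs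
      exact ⟨ω', (Finset.mem_filter.1 h1).2.1, (Finset.mem_filter.1 h1).2.2, h2⟩
    have : Nonempty Ω := ⟨ω⟩
    choose! rep hrep1 hrep2 hrep3 using hex
    have hb : ∀ s ∈ Sf (Y ω), b (rep s) = b ω := fun s hs => congrArg Prod.fst (hrep2 s hs)
    have hrr : ∀ s ∈ Sf (Y ω), r (rep s) = r ω := fun s hs => congrArg Prod.snd (hrep2 s hs)
    set Z : Finset (ν → ℝ) := (Sf (Y ω)).image (fun s => x (rep s)) with hZ
    have hcell : ∀ s ∈ Sf (Y ω), cell (g (b ω)) (x (rep s)) = s := by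
      intro s hs
      have := hrep3 s hs
      rw [hb s hs] at this
      exact this
    have hinj : Set.InjOn (fun s => x (rep s)) (Sf (Y ω) : Set (κ → ℤ)) := by
      intro s hs s' hs' h
      have h1 := hcell s hs
      have h2 := hcell s' hs'
      have h3 : x (rep s) = x (rep s') := h
      rw [h3] at h1
      rw [← h1, h2]
    have hZc : Z.card = (Sf (Y ω)).card := Finset.card_image_of_injOn hinj
    rw [← hZc]
    refine cnt_cells (F := F (b ω)) (g := g (b ω)) (w := w (b ω)) (hF _) (hg _) (c (b ω))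
      (hc _) (fun a x j => hFg _ a x j) (by positivity) Z ?_ ?_ ?_
    · intro z hz a
      obtain ⟨s, hs, rfl⟩ := Finset.mem_image.1 hz
      have := hx1 (rep s) (hrep1 s hs) a
      rw [hb s hs] at this
      exact this
    · intro z hz
      obtain ⟨s, hs, rfl⟩ := Finset.mem_image.1 hz
      have h1 := hx2 (rep s) (hrep1 s hs)
      have h2 := le_rf (hupos (rep s) (hrep1 s hs))
      have h4 : rf (u (rep s)) = r ω := hrr s hs
      rw [h4] at h2
      have h5 : jm (g (b (rep s))) (x (rep s)) ≤ 2 ^ r ω * jm (F (b (rep s))) (x (rep s)) := by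
        rwa [hu, div_le_iff₀ h1] at h2
      rw [hb s hs] at h1 h5
      obtain ⟨S, hS⟩ := exists_jm h1
      refine ⟨S, fun h0 => ?_, fun T => ?_⟩
      · rw [h0, abs_zero] at hS
        rw [hS] at h1
        exact lt_irrefl _ h1
      · rw [← hS]
        exact (le_jm _ _ T).trans h5
    · intro z hz z' hz' h
      obtain ⟨s, hs, rfl⟩ := Finset.mem_image.1 hz
      obtain ⟨s', hs', rfl⟩ := Finset.mem_image.1 hz'
      have h1 := hcell s hs
      have h2 := hcell s' hs'
      rw [h, h2] at h1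
      rw [h1]
  have h1 : CH p (fun ω => cell (g (b ω)) (x ω)) b ≤
      CH p r b + CH p (fun ω => cell (g (b ω)) (x ω)) Y := by
    have h2 := CH_le_add hp.nonneg (fun ω => cell (g (b ω)) (x ω)) r b
    have h3 : CH p (fun ω => cell (g (b ω)) (x ω)) (fun ω => (r ω, b ω)) =
        CH p (fun ω => cell (g (b ω)) (x ω)) Y := by
      refine CH_congr hp.nonneg (fun ω ω' _ _ h => congrArg Prod.fst h)
        (fun ω ω' _ _ h => congrArg Prod.fst h) ?_ ?_
      · intro ω ω' _ _ h
        exact Prod.ext (congrArg Prod.snd h) (congrArg Prod.fst h)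
      · intro ω ω' _ _ h
        exact Prod.ext (congrArg Prod.snd h) (congrArg Prod.fst h)
    linarith [h2, h3.le]
  have h2 : CH p r b ≤ Real.log (k + 1) := by
    refine (CH_le_card hp.nonneg hp.sum_one r b (fun _ => range (k + 1)) fun ω hω => ?_).trans ?_
    · rw [Finset.mem_range]
      exact Nat.lt_succ_of_le (hrk ω hω)
    · rw [Finset.card_range]
      push_cast
      exact (Ex_const hp.sum_one _).le
  have h3 : CH p (fun ω => cell (g (b ω)) (x ω)) Y ≤ Ex p (fun ω => Real.log (u ω)) +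
      eC (Fintype.card ν) (Fintype.card α) (Fintype.card κ) d := by
    refine (CH_le_card hp.nonneg hp.sum_one _ Y Sf fun ω hω => ?_).trans ?_
    · exact Finset.mem_image.2 ⟨ω, Finset.mem_filter.2 ⟨Finset.mem_univ _, hω, rfl⟩, rfl⟩
    · have h4 : ∀ ω, 0 < p ω → Real.log ((Sf (Y ω)).card) ≤ Real.log (u ω) +
          eC (Fintype.card ν) (Fintype.card α) (Fintype.card κ) d := by
        intro ω hω
        have hpos : (0 : ℝ) < (Sf (Y ω)).card := by
          have : 0 < (Sf (Y ω)).card := Finset.card_pos.2 ⟨_, Finset.mem_image.2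
            ⟨ω, Finset.mem_filter.2 ⟨Finset.mem_univ _, hω, rfl⟩, rfl⟩⟩
          exact_mod_cast this
        have h5 : ((Sf (Y ω)).card : ℝ) ≤
            (cnC (Fintype.card ν) (Fintype.card α) (Fintype.card κ) d + 1) * 2 ^ r ω := by
          refine (hcardS ω hω).trans (mul_le_mul_of_nonneg_right (by linarith) (by positivity))
        have h6 := cnC_nonneg (Fintype.card ν) (Fintype.card α) (Fintype.card κ) d
        have h7 := Real.log_le_log hpos h5
        rw [Real.log_mul (by linarith) (by positivity), Real.log_pow] at h7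
        have h8 : (r ω : ℝ) * Real.log 2 ≤ Real.log (u ω) + Real.log (2 * Nm) := by
          refine rf_log (hupos ω hω) (by linarith) ?_
          have h9 := hcomb ω hω
          have h10 := hx2 ω hω
          have h11 := hg0 ω hω
          show 1 ≤ Nm * (jm (g (b ω)) (x ω) / jm (F (b ω)) (x ω))
          rw [← mul_div_assoc, le_div_iff₀ h10, one_mul, hNm]
          nlinarith
        unfold eC
        linarith
      refine (Ex_mono hp.nonneg h4).trans ?_
      rw [Ex_add, Ex_const hp.sum_one]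
  linarith

end Pool.TUBE
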