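import Mathlib

/-!
# The tube formula for polynomial maps: linear algebra

`cb`: the expansion of a determinant some of whose rows are combinations of given rows
(Cauchy and Binet). `minor_dual`: the minors of `[Q, 1]` are the minors of `[1; -Q]`.
-/

set_option autoImplicit false
set_option linter.unusedSectionVars false

namespace Pool.TUBE

open Matrix Finset

variable {ι κ μ S : Type} [Fintype ι] [DecidableEq ι] [Fintype κ] [DecidableEq κ] [Fintype μ]
  [DecidableEq μ] [Fintype S] [DecidableEq S]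

/-- The matrix with the rows `M` (indices in `ι`) and `A` (indices in `κ`). -/
def rows (M : ι → (ι ⊕ κ → ℝ)) (A : κ → (ι ⊕ κ → ℝ)) : Matrix (ι ⊕ κ) (ι ⊕ κ) ℝ :=
  fun e => Sum.rec M A e

/-- The determinant as a multilinear map of the rows `A`. -/
noncomputable def ml (M : ι → (ι ⊕ κ → ℝ)) : MultilinearMap ℝ (fun _ : κ => (ι ⊕ κ → ℝ)) ℝ :=
  MultilinearMap.currySum
    ((Matrix.detRowAlternating (n := ι ⊕ κ) (R := ℝ)).toMultilinearMap) M

theorem ml_apply (M : ι → (ι ⊕ κ → ℝ)) (A : κ → (ι ⊕ κ → ℝ)) : ml M A = (rows M A).det := rfl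

theorem rows_expand (M : ι → (ι ⊕ κ → ℝ)) (Q : κ → S → ℝ) (F : S → (ι ⊕ κ → ℝ)) :
    (rows M (fun a => ∑ s, Q a s • F s)).det =
      ∑ φ : κ → S, (∏ a, Q a (φ a)) * (rows M (fun a => F (φ a))).det := by
  rw [← ml_apply, MultilinearMap.map_sum]
  refine Finset.sum_congr rfl fun φ _ => ?_
  rw [MultilinearMap.map_smul_univ, ml_apply, smul_eq_mul]

theorem rows_perm (M : ι → (ι ⊕ κ → ℝ)) (A : κ → (ι ⊕ κ → ℝ)) (σ : Equiv.Perm κ) :
    (rows M (fun a => A (σ a))).det = ((Equiv.Perm.sign σ : ℤ) : ℝ) * (rows M A).det := by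
  have h := Matrix.det_permute (Equiv.Perm.sumCongr (1 : Equiv.Perm ι) σ) (rows M A)
  rw [Equiv.Perm.sign_sumCongr, Equiv.Perm.sign_one, one_mul] at h
  rw [← h]
  congr 1
  ext e e'
  rcases e with i | a <;> rfl

/-- **Cauchy and Binet.** -/
theorem cb (M : ι → (ι ⊕ κ → ℝ)) (Q : κ → S → ℝ) (F : S → (ι ⊕ κ → ℝ)) :
    ((Fintype.card κ).factorial : ℝ) * (rows M (fun a => ∑ s, Q a s • F s)).det =
      ∑ φ : κ → S, (Matrix.of (fun a b => Q a (φ b))).det * (rows M (fun a => F (φ a))).det := by
  have h1 : ∀ σ : Equiv.Perm κ, (rows M (fun a => ∑ s, Q a s • F s)).det =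
      ∑ φ : κ → S, (((Equiv.Perm.sign σ : ℤ) : ℝ) * ∏ a, Q a (φ (σ a))) *
        (rows M (fun a => F (φ a))).det := by
    intro σ
    rw [rows_expand, ← Equiv.sum_comp (Equiv.arrowCongr σ.symm (Equiv.refl S))]
    refine Finset.sum_congr rfl fun φ _ => ?_
    have e1 : (Equiv.arrowCongr σ.symm (Equiv.refl S)) φ = fun a => φ (σ a) := by
      funext a
      simp [Equiv.arrowCongr]
    rw [e1, rows_perm M (fun a => F (φ a)) σ]
    ring
  have h2 : ((Fintype.card κ).factorial : ℝ) * (rows M (fun a => ∑ s, Q a s • F s)).det =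
      ∑ _σ : Equiv.Perm κ, (rows M (fun a => ∑ s, Q a s • F s)).det := by
    rw [Finset.sum_const, Finset.card_univ, Fintype.card_perm, nsmul_eq_mul]
  rw [h2, Finset.sum_congr rfl fun σ _ => h1 σ, Finset.sum_comm]
  refine Finset.sum_congr rfl fun φ _ => ?_
  rw [← Finset.sum_mul]
  congr 1
  rw [← Matrix.det_transpose, Matrix.det_apply]
  refine Finset.sum_congr rfl fun σ _ => ?_
  rw [Units.smul_def, zsmul_eq_mul]
  rfl

/-- The determinant is bounded if the minors are. -/
theorem cb_le (M : ι → (ι ⊕ κ → ℝ)) (Q : κ → S → ℝ) (F : S → (ι ⊕ κ → ℝ)) (k : ℝ)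
    (hk : ∀ φ : κ → S, |(Matrix.of (fun a b => Q a (φ b))).det| ≤ k) :
    |(rows M (fun a => ∑ s, Q a s • F s)).det| ≤
      k * ∑ φ : κ → S, |(rows M (fun a => F (φ a))).det| := by
  have h1 : (1 : ℝ) ≤ ((Fintype.card κ).factorial : ℝ) := by
    exact_mod_cast Nat.succ_le_of_lt (Nat.factorial_pos _)
  have h2 := congrArg abs (cb M Q F)
  rw [abs_mul, abs_of_nonneg (by positivity : (0 : ℝ) ≤ ((Fintype.card κ).factorial : ℝ))] at h2
  have h3 : |∑ φ : κ → S, (Matrix.of (fun a b => Q a (φ b))).det *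
      (rows M (fun a => F (φ a))).det| ≤ k * ∑ φ : κ → S, |(rows M (fun a => F (φ a))).det| := by
    rw [Finset.mul_sum]
    refine (Finset.abs_sum_le_sum_abs _ _).trans (Finset.sum_le_sum fun φ _ => ?_)
    rw [abs_mul]
    exact mul_le_mul_of_nonneg_right (hk φ) (abs_nonneg _)
  have h4 := abs_nonneg (rows M (fun a => ∑ s, Q a s • F s)).det
  nlinarith

/-- The rows of `[1; Q]`. -/
def ext (Q : κ → μ → ℝ) : μ ⊕ κ → μ → ℝ := fun s => Sum.rec (fun i => Pi.single i 1) Q s

/-- The matrix `[Q, 1]`. -/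
def ext' (Q : κ → μ → ℝ) : κ → μ ⊕ κ → ℝ := fun a s => Sum.rec (fun i => Q a i)
  (fun b => Pi.single (M := fun _ => ℝ) a 1 b) s

theorem ext'_inl (Q : κ → μ → ℝ) (a : κ) (i : μ) : ext' Q a (Sum.inl i) = Q a i := rfl

theorem ext'_inr (Q : κ → μ → ℝ) (a b : κ) : ext' Q a (Sum.inr b) = if b = a then 1 else 0 := by
  show Pi.single (M := fun _ => ℝ) a 1 b = _
  rw [Pi.single_apply]

/-- **Duality of minors.** -/
theorem minor_dual (Q : κ → μ → ℝ) (k : ℝ) (hk0 : 0 ≤ k)
    (hk : ∀ ψ : μ → μ ⊕ κ, |(Matrix.of (fun i j => ext Q (ψ i) j)).det| ≤ k) (φ : κ → μ ⊕ κ) :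
    |(Matrix.of (fun a b => ext' Q a (φ b))).det| ≤ k := by
  classical
  by_cases hφ : Function.Injective φ
  · -- an equivalence which extends `φ`
    obtain ⟨e, he⟩ : ∃ e : κ ⊕ μ ≃ μ ⊕ κ, ∀ a, e (Sum.inl a) = φ a := by
      have hc : Fintype.card ((Set.range φ)ᶜ : Set (μ ⊕ κ)) = Fintype.card μ := by
        rw [Fintype.card_compl_set, Set.card_range_of_injective hφ, Fintype.card_sum]
        omega
      let e₁ : κ ≃ Set.range φ := Equiv.ofInjective φ hφ
      let e₂ : μ ≃ ((Set.range φ)ᶜ : Set (μ ⊕ κ)) := (Fintype.equivOfCardEq hc).symm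
      refine ⟨(Equiv.sumCongr e₁ e₂).trans (Equiv.Set.sumCompl (Set.range φ)), fun a => ?_⟩
      simp only [Equiv.trans_apply, Equiv.sumCongr_apply, Sum.map_inl]
      rfl
    -- the big matrix
    let Mb : Matrix (κ ⊕ μ) (μ ⊕ κ) ℝ := fun r c =>
      Sum.rec (fun a => ext' Q a c) (fun i => Pi.single (M := fun _ => ℝ) (Sum.inl i) 1 c) r
    let Me : Matrix (κ ⊕ μ) (κ ⊕ μ) ℝ := Mb.submatrix id e
    -- the second matrix: unit columns and kernel columns
    let wv : μ → (μ ⊕ κ → ℝ) := fun j s => Sum.rec (fun i => Pi.single (M := fun _ => ℝ) j 1 i)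
      (fun a => - Q a j) s
    let Be : Matrix (κ ⊕ μ) (κ ⊕ μ) ℝ := Matrix.fromBlocks 1
      (Matrix.of (fun a j => wv j (e (Sum.inl a)))) 0 (Matrix.of (fun i j => wv j (e (Sum.inr i))))
    have hMw : ∀ r j, ∑ c, Mb r c * wv j c = Sum.elim (fun _ : κ => (0 : ℝ))
        (fun i => if i = j then 1 else 0) r := by
      intro r j
      rw [Fintype.sum_sum_type]
      rcases r with a | i
      · have h1 : ∑ x : μ, Mb (Sum.inl a) (Sum.inl x) * wv j (Sum.inl x) = Q a j := by
          show ∑ x : μ, Q a x * Pi.single (M := fun _ => ℝ) j 1 x = Q a j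
          simp [Pi.single_apply]
        have h2 : ∑ x : κ, Mb (Sum.inl a) (Sum.inr x) * wv j (Sum.inr x) = - Q a j := by
          show ∑ x : κ, ext' Q a (Sum.inr x) * (- Q x j) = - Q a j
          simp [ext'_inr]
        rw [h1, h2]
        simp
      · have h1 : ∑ x : μ, Mb (Sum.inr i) (Sum.inl x) * wv j (Sum.inl x) =
            if i = j then 1 else 0 := by
          show ∑ x : μ, Pi.single (M := fun _ => ℝ) (Sum.inl i) 1 (Sum.inl x) *
            Pi.single (M := fun _ => ℝ) j 1 x = _
          simp only [Pi.single_apply, Sum.inl.injEq]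
          simp only [ite_mul, one_mul, zero_mul, Finset.sum_ite_eq', Finset.mem_univ, if_true]
        have h2 : ∑ x : κ, Mb (Sum.inr i) (Sum.inr x) * wv j (Sum.inr x) = 0 := by
          refine Finset.sum_eq_zero fun x _ => ?_
          show Pi.single (M := fun _ => ℝ) (Sum.inl i) 1 (Sum.inr x) * _ = 0
          simp
        rw [h1, h2]
        simp
    have hprod : Me * Be = Matrix.fromBlocks (Matrix.of (fun a b => ext' Q a (φ b))) 0
        (Matrix.of (fun i b => Mb (Sum.inr i) (φ b))) 1 := by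
      ext r c
      rw [Matrix.mul_apply]
      rcases c with b | j
      · have h1 : ∀ x : κ ⊕ μ, Me r x * Be x (Sum.inl b) = if x = Sum.inl b then Me r x else 0 := by
          intro x
          rcases x with x | x
          · show Me r (Sum.inl x) * (1 : Matrix κ κ ℝ) x b = _
            rw [Matrix.one_apply]
            by_cases h : x = b
            · simp [h]
            · simp [h]
          · show Me r (Sum.inr x) * 0 = _
            simp
        rw [Finset.sum_congr rfl fun x _ => h1 x, Finset.sum_ite_eq' , if_pos (Finset.mem_univ _)]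
        rcases r with a | i
        · show Mb (Sum.inl a) (e (Sum.inl b)) = ext' Q a (φ b)
          rw [he]
        · show Mb (Sum.inr i) (e (Sum.inl b)) = Mb (Sum.inr i) (φ b)
          rw [he]
      · have h1 : ∀ x : κ ⊕ μ, Me r x * Be x (Sum.inr j) = Mb r (e x) * wv j (e x) := by
          intro x
          rcases x with x | x <;> rfl
        rw [Finset.sum_congr rfl fun x _ => h1 x, Equiv.sum_comp e (fun c => Mb r c * wv j c), hMw]
        rcases r with a | i
        · rfl
        · show (if i = j then (1 : ℝ) else 0) = (1 : Matrix μ μ ℝ) i j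
          rw [Matrix.one_apply]
    have hdet := congrArg Matrix.det hprod
    rw [Matrix.det_mul, Matrix.det_fromBlocks_zero₁₂ (Matrix.of (fun a b => ext' Q a (φ b)))
      (Matrix.of (fun i b => Mb (Sum.inr i) (φ b))) (1 : Matrix μ μ ℝ), Matrix.det_one, mul_one] at hdet
    have hMe : |Me.det| = 1 := by
      have h1 := Matrix.abs_det_submatrix_equiv_equiv (Equiv.refl (κ ⊕ μ))
        (e.trans (Equiv.sumComm κ μ).symm) (Mb.submatrix id (Equiv.sumComm κ μ))
      have h0 : (Mb.submatrix id (Equiv.sumComm κ μ)).submatrix (Equiv.refl (κ ⊕ μ))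
          (e.trans (Equiv.sumComm κ μ).symm) = Me := by
        ext r c
        show Mb r ((Equiv.sumComm κ μ) ((Equiv.sumComm κ μ).symm (e c))) = Mb r (e c)
        rw [Equiv.apply_symm_apply]
      rw [h0] at h1
      rw [h1]
      have h2 : Mb.submatrix id (Equiv.sumComm κ μ) =
          Matrix.fromBlocks 1 (Matrix.of (fun a j => Q a j)) 0 1 := by
        ext r c
        rcases r with a | i <;> rcases c with b | j
        · show ext' Q a (Sum.inr b) = (1 : Matrix κ κ ℝ) a b
          rw [ext'_inr, Matrix.one_apply]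
          by_cases h : a = b
          · simp [h]
          · simp [h, Ne.symm h]
        · rfl
        · show Pi.single (M := fun _ => ℝ) (Sum.inl i) 1 (Sum.inr b) = 0
          simp
        · show Pi.single (M := fun _ => ℝ) (Sum.inl i) 1 (Sum.inl j) = (1 : Matrix μ μ ℝ) i j
          rw [Pi.single_apply, Matrix.one_apply]
          by_cases h : i = j
          · simp [h]
          · simp [h, Ne.symm h]
      rw [h2, Matrix.det_fromBlocks_zero₂₁, Matrix.det_one, Matrix.det_one]
      norm_num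
    have hBe : |Be.det| ≤ k := by
      have h1 : Be.det = (Matrix.of (fun i j => wv j (e (Sum.inr i)))).det := by
        show (Matrix.fromBlocks _ _ _ _).det = _
        rw [Matrix.det_fromBlocks_zero₂₁, Matrix.det_one, one_mul]
      have h2 : (Matrix.of (fun i j => wv j (e (Sum.inr i)))) =
          Matrix.of (fun i j => (Sum.elim (fun _ => (1 : ℝ)) (fun _ => -1) (e (Sum.inr i))) *
            Matrix.of (fun i j => ext Q (e (Sum.inr i)) j) i j) := by
        ext i j
        show wv j (e (Sum.inr i)) = Sum.elim (fun _ => (1 : ℝ)) (fun _ => -1) (e (Sum.inr i)) *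
          ext Q (e (Sum.inr i)) j
        rcases e (Sum.inr i) with l | a
        · show Pi.single (M := fun _ => ℝ) j 1 l = 1 * Pi.single (M := fun _ => ℝ) l 1 j
          rw [one_mul, Pi.single_apply, Pi.single_apply]
          by_cases h : l = j
          · simp [h]
          · simp [h, Ne.symm h]
        · show - Q a j = -1 * Q a j
          ring
      rw [h1, h2, Matrix.det_mul_column, abs_mul, Finset.abs_prod]
      have h3 : ∏ i : μ, |Sum.elim (fun _ : μ => (1 : ℝ)) (fun _ : κ => -1) (e (Sum.inr i))| = 1 := by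
        refine Finset.prod_eq_one fun i _ => ?_
        rcases e (Sum.inr i) with l | a
        · exact abs_one
        · show |(-1 : ℝ)| = 1
          norm_num
      rw [h3, one_mul]
      exact hk _
    rw [← hdet, abs_mul, hMe, one_mul]
    exact hBe
  · -- two equal columns
    have h1 : ∃ a b, φ a = φ b ∧ a ≠ b := by
      unfold Function.Injective at hφ
      push Not at hφ
      exact hφ
    obtain ⟨a, b, hab, hne⟩ := h1
    rw [Matrix.det_zero_of_column_eq hne (fun c => by simp [hab]), abs_zero]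
    exact hk0

end Pool.TUBE
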