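import Pool.Agent.H16.TUBE.Vol

/-!
# The tube theorem
-/

set_option autoImplicit false
set_option linter.unusedSectionVars false

namespace Pool.TUBE

open MvPolynomial Finset MeasureTheory
open Pool.Agent.H50.PW

variable {ι κ μ : Type} [Fintype ι] [DecidableEq ι] [Fintype κ] [DecidableEq κ] [Fintype μ]
  [DecidableEq μ]

/-- The box in the space of the pairs. -/
def Bx (r : ℝ) (η : ℝ) (v : κ → ℝ) : Set (ι ⊕ κ → ℝ) :=
  Set.pi Set.univ (fun e => Set.Ioo (Sum.rec (motive := fun _ => ℝ) (fun _ => -r)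
    (fun a => v a - η) e) (Sum.rec (motive := fun _ => ℝ) (fun _ => r) (fun a => v a + η) e))

theorem mem_Bx {r η : ℝ} {v : κ → ℝ} {w : ι ⊕ κ → ℝ} : w ∈ Bx r η v ↔
    (∀ l, |w (Sum.inl l)| < r) ∧ ∀ a, |w (Sum.inr a) - v a| < η := by
  unfold Bx
  rw [Set.mem_univ_pi]
  constructor
  · intro h
    refine ⟨fun l => abs_lt.2 (h (Sum.inl l)), fun a => ?_⟩
    have h1 : v a - η < w (Sum.inr a) ∧ w (Sum.inr a) < v a + η := h (Sum.inr a)
    rw [abs_lt]
    constructor <;> linarith [h1.1, h1.2]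
  · rintro ⟨h1, h2⟩ e
    rcases e with l | a
    · exact abs_lt.1 (h1 l)
    · have h3 := abs_lt.1 (h2 a)
      show v a - η < w (Sum.inr a) ∧ w (Sum.inr a) < v a + η
      constructor <;> linarith [h3.1, h3.2]

theorem volume_Bx {r η : ℝ} (hr : 0 ≤ r) (hη : 0 ≤ η) (v : κ → ℝ) :
    volume (Bx (ι := ι) r η v) =
      ENNReal.ofReal ((2 * r) ^ Fintype.card ι * (2 * η) ^ Fintype.card κ) := by
  unfold Bx
  rw [Real.volume_pi_Ioo, Fintype.prod_sum_type, ENNReal.ofReal_mul (by positivity),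
    ENNReal.ofReal_pow (by positivity), ENNReal.ofReal_pow (by positivity)]
  congr 1
  · rw [← Finset.card_univ, ← Finset.prod_const]
    refine Finset.prod_congr rfl fun l _ => ?_
    show ENNReal.ofReal (r - -r) = _
    congr 1
    ring
  · rw [← Finset.card_univ, ← Finset.prod_const]
    refine Finset.prod_congr rfl fun a _ => ?_
    show ENNReal.ofReal (v a + η - (v a - η)) = _
    congr 1
    ring

theorem measurableSet_Bx (r η : ℝ) (v : κ → ℝ) : MeasurableSet (Bx (ι := ι) r η v) :=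
  MeasurableSet.univ_pi fun _ => measurableSet_Ioo

/-- The constant of the tube theorem. -/
noncomputable def tubC (n N m d : ℕ) (B : ℝ) : ℝ :=
  (((m + N) ^ N * (d + 2) ^ (n + N) : ℕ) : ℝ) * (2 * (N + 1) * (B + 3)) ^ N

theorem tubC_nonneg (n N m d : ℕ) {B : ℝ} (hB : 0 ≤ B) : 0 ≤ tubC n N m d B := by
  unfold tubC
  positivity

theorem image_sub {d : ℕ} {P : MvPolynomial ι ℝ} {f : μ → MvPolynomial ι ℝ}
    {g : κ → MvPolynomial ι ℝ} {B r : ℝ}
    (hf' : ∀ y, eval y P < 2 → ∀ i, |eval y (f i)| ≤ B) (hB : 0 ≤ B) (φ : κ → μ ⊕ κ)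
    (_ : P.totalDegree ≤ d) :
    pmap (th P g (fun a => hf f (φ a))) '' Reg P g r ⊆ Bx r (B + 3) (fun _ => (0 : ℝ)) := by
  rintro w ⟨z, ⟨h1, h2, h3⟩, rfl⟩
  rw [mem_Bx]
  refine ⟨fun l => h3 l, fun a => ?_⟩
  rw [sub_zero]
  show |eval z (hf f (φ a))| < B + 3
  rcases φ a with i | b
  · show |eval z (rename Sum.inl (f i))| < B + 3
    rw [eval_up]
    linarith [hf' _ h1 i]
  · show |eval z (X (Sum.inr b))| < B + 3
    rw [eval_X]
    linarith [h2 b]

theorem lint_le {d : ℕ} {P : MvPolynomial ι ℝ} {f : μ → MvPolynomial ι ℝ}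
    {g : κ → MvPolynomial ι ℝ} {B r : ℝ} (hP : P.totalDegree ≤ d)
    (hgd : ∀ a, (g a).totalDegree ≤ d) (hfd : ∀ i, (f i).totalDegree ≤ d) (hr : 0 ≤ r)
    (hf' : ∀ y, eval y P < 2 → ∀ i, |eval y (f i)| ≤ B) (hB : 0 ≤ B) (φ : κ → μ ⊕ κ) :
    ∫⁻ z in Reg P g r, ENNReal.ofReal |(jac (th P g (fun a => hf f (φ a))) z).det| ≤
      ENNReal.ofReal ((((d + 2) ^ (Fintype.card ι + Fintype.card κ) : ℕ) : ℝ) *
        ((2 * r) ^ Fintype.card ι * (2 * (B + 3)) ^ Fintype.card κ)) := by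
  refine (lintegral_det_le (d := d + 1) _ (totalDegree_th hP hgd fun a => totalDegree_hf hfd _)
    _ (measurableSet_Reg P g r)).trans ?_
  rw [ENNReal.ofReal_mul (by positivity), ENNReal.ofReal_natCast, Fintype.card_sum]
  refine mul_le_mul' le_rfl ?_
  rw [← volume_Bx hr (by linarith : (0 : ℝ) ≤ B + 3) (fun _ => (0 : ℝ))]
  exact measure_mono (image_sub hf' hB φ hP)

/-- The volume of the neighbourhood of the image. -/
theorem vol_le {d : ℕ} {P : MvPolynomial ι ℝ} {f : μ → MvPolynomial ι ℝ}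
    {g : κ → MvPolynomial ι ℝ} {B r k : ℝ} (hP : P.totalDegree ≤ d)
    (hgd : ∀ a, (g a).totalDegree ≤ d) (hfd : ∀ i, (f i).totalDegree ≤ d) (hr : 0 ≤ r)
    (hf' : ∀ y, eval y P < 2 → ∀ i, |eval y (f i)| ≤ B) (hB : 0 ≤ B) (hk0 : 0 ≤ k)
    (hQ : ∀ y, eval y P < 2 → ∃ Q : κ → μ → ℝ, (∀ a l, eval y (pderiv l (g a)) =
      ∑ i, Q a i * eval y (pderiv l (f i))) ∧
      ∀ ψ : μ → μ ⊕ κ, |(Matrix.of (fun i j => ext Q (ψ i) j)).det| ≤ k) :
    volume (pmap (th P g (hg g)) '' Reg P g r) ≤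
      ENNReal.ofReal (k * ((((Fintype.card μ + Fintype.card κ) ^ Fintype.card κ : ℕ) : ℝ) *
        ((((d + 2) ^ (Fintype.card ι + Fintype.card κ) : ℕ) : ℝ) *
        ((2 * r) ^ Fintype.card ι * (2 * (B + 3)) ^ Fintype.card κ)))) := by
  have h1 := addHaar_image_le_lintegral_abs_det_fderiv volume (measurableSet_Reg P g r)
    (f := pmap (th P g (hg g))) (f' := djac (th P g (hg g)))
    (fun z _ => (hasStrictFDerivAt_pmap _ z).hasFDerivAt.hasFDerivWithinAt)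
  refine h1.trans ?_
  simp only [djac_det]
  have h2 : ∫⁻ z in Reg P g r, ENNReal.ofReal |(jac (th P g (hg g)) z).det| ≤
      ∫⁻ z in Reg P g r, ENNReal.ofReal k * ∑ φ : κ → μ ⊕ κ,
        ENNReal.ofReal |(jac (th P g (fun a => hf f (φ a))) z).det| := by
    refine setLIntegral_mono' (measurableSet_Reg P g r) fun z hz => ?_
    obtain ⟨Q, hQ1, hQ2⟩ := hQ _ hz.1
    rw [← ENNReal.ofReal_sum_of_nonneg fun φ _ => abs_nonneg _, ← ENNReal.ofReal_mul hk0]
    exact ENNReal.ofReal_le_ofReal (det_le hk0 hQ1 hQ2)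
  refine h2.trans ?_
  have hm : ∀ φ : κ → μ ⊕ κ, Measurable fun z : ι ⊕ κ → ℝ =>
      ENNReal.ofReal |(jac (th P g (fun a => hf f (φ a))) z).det| := fun φ =>
    ENNReal.measurable_ofReal.comp (continuous_jac_det _).abs.measurable
  rw [lintegral_const_mul _ (Finset.measurable_sum _ fun φ _ => hm φ),
    lintegral_finsetSum _ fun φ _ => hm φ, ENNReal.ofReal_mul hk0]
  refine mul_le_mul' le_rfl ?_
  refine (Finset.sum_le_sum fun φ _ => lint_le hP hgd hfd hr hf' hB φ).trans (le_of_eq ?_)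
  rw [Finset.sum_const, Finset.card_univ, Fintype.card_fun, Fintype.card_sum, nsmul_eq_mul]
  conv_rhs => rw [ENNReal.ofReal_mul (by positivity), ENNReal.ofReal_natCast]

/-- **The tube theorem.** -/
theorem tube {d : ℕ} {P : MvPolynomial ι ℝ} {f : μ → MvPolynomial ι ℝ} {g : κ → MvPolynomial ι ℝ}
    (hP : P.totalDegree ≤ d) (hgd : ∀ a, (g a).totalDegree ≤ d) (hfd : ∀ i, (f i).totalDegree ≤ d)
    (hP0 : ∀ y, 0 ≤ eval y P) {R : ℝ} (hbd : ∀ y : ι → ℝ, eval y P < 2 → ‖y‖ ≤ R) {B : ℝ}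
    (hB : 0 ≤ B) (hf' : ∀ y, eval y P < 2 → ∀ i, |eval y (f i)| ≤ B) {k : ℝ} (hk0 : 0 ≤ k)
    (hQ : ∀ y, eval y P < 2 → ∃ Q : κ → μ → ℝ, (∀ a l, eval y (pderiv l (g a)) =
      ∑ i, Q a i * eval y (pderiv l (f i))) ∧
      ∀ ψ : μ → μ ⊕ κ, |(Matrix.of (fun i j => ext Q (ψ i) j)).det| ≤ k)
    (Z : Finset (ι → ℝ)) (hZ : ∀ y ∈ Z, eval y P ≤ 1)
    (hsep : ∀ y ∈ Z, ∀ y' ∈ Z, y ≠ y' → ∃ a, 1 ≤ |eval y (g a) - eval y' (g a)|) :
    (Z.card : ℝ) ≤ tubC (Fintype.card ι) (Fintype.card κ) (Fintype.card μ) d B * k := by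
  classical
  rcases Z.eq_empty_or_nonempty with hemp | ⟨y₁, hy₁⟩
  · rw [hemp, Finset.card_empty, Nat.cast_zero]
    exact mul_nonneg (tubC_nonneg _ _ _ _ hB) hk0
  have hR : 0 ≤ R := (norm_nonneg y₁).trans (hbd y₁ (by linarith [hZ y₁ hy₁]))
  set n := Fintype.card ι with hn
  set N := Fintype.card κ with hN
  set m := Fintype.card μ with hm
  set η : ℝ := 1 / (2 * (N + 1)) with hη
  set r : ℝ := 1 / (8 * (n + 1) * (2 * R + 1)) with hr
  have hη0 : 0 < η := by positivity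
  have hη2 : η ≤ 1 / 2 := by
    rw [hη, div_le_div_iff₀ (by positivity) (by norm_num)]
    have : (0 : ℝ) ≤ N := Nat.cast_nonneg _
    linarith
  have hη1 : N * η ^ 2 ≤ 1 / 4 := by
    have h1 : (0 : ℝ) ≤ N := Nat.cast_nonneg _
    have h2 : N * η ≤ 1 / 2 := by
      rw [hη, mul_one_div, div_le_div_iff₀ (by positivity) (by norm_num)]
      linarith
    nlinarith
  have hr0 : 0 < r := by positivity
  have hr1 : n * (r * (2 * R + 1)) ≤ 1 / 8 := by
    have h1 : r * (2 * R + 1) = 1 / (8 * (n + 1)) := by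
      rw [hr]
      field_simp
    rw [h1, mul_one_div, div_le_div_iff₀ (by positivity) (by norm_num)]
    have : (0 : ℝ) ≤ n := Nat.cast_nonneg _
    linarith
  have hsub : ∀ y ∈ Z, Bx r η (fun a => eval y (g a)) ⊆ pmap (th P g (hg g)) '' Reg P g r := by
    intro y hy w hw
    rw [mem_Bx] at hw
    exact crit hP0 hbd hη1 hr0.le hr1 (hZ y hy) hw.1 hw.2
  have hdisj : (Z : Set (ι → ℝ)).PairwiseDisjoint
      (fun y => Bx (ι := ι) r η (fun a => eval y (g a))) := by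
    intro y hy y' hy' hne
    rw [Function.onFun, Set.disjoint_left]
    intro w hw hw'
    rw [mem_Bx] at hw hw'
    obtain ⟨a, ha⟩ := hsep y hy y' hy' hne
    have h1 := hw.2 a
    have h2 := hw'.2 a
    have h3 : |eval y (g a) - eval y' (g a)| ≤ |w (Sum.inr a) - eval y (g a)| +
        |w (Sum.inr a) - eval y' (g a)| := by
      have h4 := abs_sub (w (Sum.inr a) - eval y' (g a)) (w (Sum.inr a) - eval y (g a))
      have h5 : w (Sum.inr a) - eval y' (g a) - (w (Sum.inr a) - eval y (g a)) =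
          eval y (g a) - eval y' (g a) := by ring
      rw [h5] at h4
      linarith
    linarith
  have h1 : (Z.card : ENNReal) * ENNReal.ofReal ((2 * r) ^ n * (2 * η) ^ N) ≤
      volume (pmap (th P g (hg g)) '' Reg P g r) := by
    have h2 : volume (⋃ y ∈ Z, Bx (ι := ι) r η (fun a => eval y (g a))) =
        (Z.card : ENNReal) * ENNReal.ofReal ((2 * r) ^ n * (2 * η) ^ N) := by
      rw [measure_biUnion_finset hdisj fun y _ => measurableSet_Bx _ _ _]
      rw [Finset.sum_congr rfl fun y _ => volume_Bx hr0.le hη0.le _, Finset.sum_const,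
        nsmul_eq_mul]
    rw [← h2]
    refine measure_mono ?_
    intro w hw
    simp only [Set.mem_iUnion] at hw
    obtain ⟨y, hy, hwy⟩ := hw
    exact hsub y hy hwy
  have h2 := h1.trans (vol_le hP hgd hfd hr0.le hf' hB hk0 hQ)
  rw [← ENNReal.ofReal_natCast, ← ENNReal.ofReal_mul (Nat.cast_nonneg _),
    ENNReal.ofReal_le_ofReal_iff (by positivity), ← hn, ← hN, ← hm] at h2
  have h3 : (0 : ℝ) < (2 * r) ^ n := by positivity
  have h4 : (Z.card : ℝ) * (2 * η) ^ N ≤ k * ((((m + N) ^ N : ℕ) : ℝ) *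
      ((((d + 2) ^ (n + N) : ℕ) : ℝ) * (2 * (B + 3)) ^ N)) := by
    refine le_of_mul_le_mul_left ?_ h3
    calc (2 * r) ^ n * ((Z.card : ℝ) * (2 * η) ^ N) = Z.card * ((2 * r) ^ n * (2 * η) ^ N) := by ring
      _ ≤ _ := h2
      _ = _ := by ring
  have h5 : (2 * η) ^ N * ((N : ℝ) + 1) ^ N = 1 := by
    rw [← mul_pow]
    have : 2 * η * ((N : ℝ) + 1) = 1 := by
      rw [hη]
      field_simp
    rw [this, one_pow]
  have h6 : (0 : ℝ) ≤ ((N : ℝ) + 1) ^ N := by positivity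
  have h7 : (Z.card : ℝ) = Z.card * (2 * η) ^ N * ((N : ℝ) + 1) ^ N := by
    rw [mul_assoc, h5, mul_one]
  rw [h7]
  refine (mul_le_mul_of_nonneg_right h4 h6).trans (le_of_eq ?_)
  unfold tubC
  rw [mul_pow, mul_pow, mul_pow]
  push_cast
  ring

end Pool.TUBE
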