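import Pool.Agent.H50.PW.Area
import Pool.Agent.H50.PW.Det
import Pool.Agent.H16.TUBE.Lin

/-!
# The tube formula for polynomial maps

A polynomial map `g` from `ℝ ^ ι` to `ℝ ^ κ` on the region `{P ≤ 1}`, `P ≥ 0` a polynomial. The
number of the points of the image at mutual distance one is at most a constant (degrees and numbers
of the variables) times a bound `k` for the minors of the matrix which expresses the differentials
of `g` by those of functions `f` which are bounded on `{P < 2}`.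

Proof: for `v` near the image and `ε` small the minimum of `P + |g - v| ^ 2 / 2 - ε y` is a
critical point; so the volume of the neighbourhood of the image is at most the integral of the
Jacobian of `(y, l) ↦ (g + l, ∇ P - ∑ l ∇ g)`; the determinant is a combination of the determinants
with `f` or `l` in place of `g + l`, and these maps are bounded and of bounded multiplicity.
-/

set_option autoImplicit false
set_option linter.unusedSectionVars false

namespace Pool.TUBE

open MvPolynomial Finset MeasureTheory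
open Pool.Agent.H50.PW

variable {ι κ μ : Type} [Fintype ι] [DecidableEq ι] [Fintype κ] [DecidableEq κ] [Fintype μ]
  [DecidableEq μ]

/-! ### The maps -/

/-- The gradient part. -/
noncomputable def gp (P : MvPolynomial ι ℝ) (g : κ → MvPolynomial ι ℝ) (l : ι) :
    MvPolynomial (ι ⊕ κ) ℝ :=
  rename Sum.inl (pderiv l P) - ∑ a, X (Sum.inr a) * rename Sum.inl (pderiv l (g a))

/-- The map with the functions `h`. -/
noncomputable def th (P : MvPolynomial ι ℝ) (g : κ → MvPolynomial ι ℝ)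
    (h : κ → MvPolynomial (ι ⊕ κ) ℝ) : ι ⊕ κ → MvPolynomial (ι ⊕ κ) ℝ :=
  fun e => Sum.rec (gp P g) h e

/-- The functions `g + l`. -/
noncomputable def hg (g : κ → MvPolynomial ι ℝ) (a : κ) : MvPolynomial (ι ⊕ κ) ℝ :=
  rename Sum.inl (g a) + X (Sum.inr a)

/-- The bounded functions `f`, `l`. -/
noncomputable def hf (f : μ → MvPolynomial ι ℝ) (s : μ ⊕ κ) : MvPolynomial (ι ⊕ κ) ℝ :=
  Sum.rec (fun i => rename Sum.inl (f i)) (fun b => X (Sum.inr b)) s

theorem totalDegree_gp {d : ℕ} {P : MvPolynomial ι ℝ} {g : κ → MvPolynomial ι ℝ}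
    (hP : P.totalDegree ≤ d) (hg : ∀ a, (g a).totalDegree ≤ d) (l : ι) :
    (gp P g l).totalDegree ≤ d + 1 := by
  unfold gp
  refine (totalDegree_sub _ _).trans (max_le ?_ ?_)
  · exact (totalDegree_rename_le _ _).trans ((totalDegree_pderiv_le _ _).trans (hP.trans
      (Nat.le_succ d)))
  · refine totalDegree_finsetSum_le fun a _ => ?_
    refine (totalDegree_mul _ _).trans ?_
    rw [totalDegree_X]
    have := (totalDegree_rename_le (Sum.inl : ι → ι ⊕ κ) (pderiv l (g a))).trans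
      ((totalDegree_pderiv_le _ _).trans (hg a))
    omega

theorem totalDegree_hf {d : ℕ} {f : μ → MvPolynomial ι ℝ} (hf' : ∀ i, (f i).totalDegree ≤ d)
    (s : μ ⊕ κ) : (hf (κ := κ) f s).totalDegree ≤ d + 1 := by
  rcases s with i | b
  · exact (totalDegree_rename_le _ _).trans ((hf' i).trans (Nat.le_succ d))
  · show (X (Sum.inr b) : MvPolynomial (ι ⊕ κ) ℝ).totalDegree ≤ d + 1
    rw [totalDegree_X]
    omega

theorem totalDegree_th {d : ℕ} {P : MvPolynomial ι ℝ} {g : κ → MvPolynomial ι ℝ}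
    (hP : P.totalDegree ≤ d) (hg : ∀ a, (g a).totalDegree ≤ d) {h : κ → MvPolynomial (ι ⊕ κ) ℝ}
    (hh : ∀ a, (h a).totalDegree ≤ d + 1) (e : ι ⊕ κ) : (th P g h e).totalDegree ≤ d + 1 := by
  rcases e with l | a
  · exact totalDegree_gp hP hg l
  · exact hh a

theorem eval_up (z : ι ⊕ κ → ℝ) (q : MvPolynomial ι ℝ) :
    eval z (rename Sum.inl q) = eval (fun l => z (Sum.inl l)) q := by
  rw [eval_rename]
  rfl

theorem pd_inl (q : MvPolynomial ι ℝ) (l : ι) :
    pderiv (Sum.inl l : ι ⊕ κ) (rename Sum.inl q) = rename Sum.inl (pderiv l q) :=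
  pderiv_rename Sum.inl_injective l q

theorem pd_inr (q : MvPolynomial ι ℝ) (b : κ) :
    pderiv (Sum.inr b : ι ⊕ κ) (rename Sum.inl q) = 0 := by
  refine pderiv_eq_zero_of_notMem_vars fun hb => ?_
  have h1 := vars_rename (Sum.inl : ι → ι ⊕ κ) q
  have h2 := h1 hb
  rw [Finset.mem_image] at h2
  obtain ⟨a, _, ha⟩ := h2
  exact absurd ha (by simp)

theorem jac_th (P : MvPolynomial ι ℝ) (g : κ → MvPolynomial ι ℝ) (h : κ → MvPolynomial (ι ⊕ κ) ℝ)
    (z : ι ⊕ κ → ℝ) : jac (th P g h) z = rows (fun l e => eval z (pderiv e (gp P g l)))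
      (fun a e => eval z (pderiv e (h a))) := by
  ext e e'
  rcases e with l | a <;> rfl

/-- The differentials of `g + l` are combinations of those of `f` and `l`. -/
theorem row_hg {f : μ → MvPolynomial ι ℝ} {g : κ → MvPolynomial ι ℝ} {z : ι ⊕ κ → ℝ}
    {Q : κ → μ → ℝ} (hQ : ∀ a l, eval (fun l => z (Sum.inl l)) (pderiv l (g a)) =
      ∑ i, Q a i * eval (fun l => z (Sum.inl l)) (pderiv l (f i))) (a : κ) :
    (fun e => eval z (pderiv e (hg g a))) =
      ∑ s : μ ⊕ κ, ext' Q a s • (fun e => eval z (pderiv e (hf (κ := κ) f s))) := by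
  funext e
  rw [Finset.sum_apply, Fintype.sum_sum_type]
  simp only [Pi.smul_apply, smul_eq_mul]
  have h2 : ∑ b : κ, ext' Q a (Sum.inr b) * eval z (pderiv e (hf (κ := κ) f (Sum.inr b))) =
      eval z (pderiv e (X (Sum.inr a))) := by
    simp only [ext'_inr, ite_mul, one_mul, zero_mul]
    rw [Finset.sum_ite_eq' , if_pos (Finset.mem_univ _)]
    rfl
  rw [h2]
  show eval z (pderiv e (rename Sum.inl (g a) + X (Sum.inr a))) = _
  rw [map_add, map_add]
  congr 1
  rcases e with l | b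
  · rw [pd_inl, eval_up, hQ]
    refine Finset.sum_congr rfl fun i _ => ?_
    show _ = Q a i * eval z (pderiv (Sum.inl l) (rename Sum.inl (f i)))
    rw [pd_inl, eval_up]
  · rw [pd_inr, map_zero]
    symm
    refine Finset.sum_eq_zero fun i _ => ?_
    show Q a i * eval z (pderiv (Sum.inr b) (rename Sum.inl (f i))) = 0
    rw [pd_inr, map_zero, mul_zero]

/-- **The determinant**. -/
theorem det_le {P : MvPolynomial ι ℝ} {f : μ → MvPolynomial ι ℝ} {g : κ → MvPolynomial ι ℝ}
    {z : ι ⊕ κ → ℝ} {Q : κ → μ → ℝ} {k : ℝ} (hk0 : 0 ≤ k)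
    (hQ : ∀ a l, eval (fun l => z (Sum.inl l)) (pderiv l (g a)) =
      ∑ i, Q a i * eval (fun l => z (Sum.inl l)) (pderiv l (f i)))
    (hk : ∀ ψ : μ → μ ⊕ κ, |(Matrix.of (fun i j => ext Q (ψ i) j)).det| ≤ k) :
    |(jac (th P g (hg g)) z).det| ≤
      k * ∑ φ : κ → μ ⊕ κ, |(jac (th P g (fun a => hf f (φ a))) z).det| := by
  have h1 : jac (th P g (hg g)) z = rows (fun l e => eval z (pderiv e (gp P g l)))
      (fun a => ∑ s : μ ⊕ κ, ext' Q a s • (fun e => eval z (pderiv e (hf (κ := κ) f s)))) := by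
    rw [jac_th]
    congr 1
    funext a
    exact row_hg hQ a
  rw [h1]
  refine (cb_le _ (ext' Q) _ k fun φ => minor_dual Q k hk0 hk φ).trans (le_of_eq ?_)
  congr 1
  refine Finset.sum_congr rfl fun φ _ => ?_
  rw [jac_th]

/-! ### The critical point -/

/-- The penalised function. -/
noncomputable def phi (P : MvPolynomial ι ℝ) (g : κ → MvPolynomial ι ℝ) (w : ι ⊕ κ → ℝ) :
    MvPolynomial ι ℝ :=
  P + C (1 / 2) * ∑ a, (g a - C (w (Sum.inr a))) ^ 2 - ∑ l, C (w (Sum.inl l)) * X l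

theorem eval_phi (P : MvPolynomial ι ℝ) (g : κ → MvPolynomial ι ℝ) (w : ι ⊕ κ → ℝ) (y : ι → ℝ) :
    eval y (phi P g w) = eval y P + 1 / 2 * ∑ a, (eval y (g a) - w (Sum.inr a)) ^ 2 -
      ∑ l, w (Sum.inl l) * y l := by
  unfold phi
  simp only [map_sub, map_add, map_mul, map_sum, map_pow, eval_C, eval_X]

theorem pderiv_phi (P : MvPolynomial ι ℝ) (g : κ → MvPolynomial ι ℝ) (w : ι ⊕ κ → ℝ) (y : ι → ℝ)
    (l : ι) : eval y (pderiv l (phi P g w)) = eval y (pderiv l P) +
      ∑ a, (eval y (g a) - w (Sum.inr a)) * eval y (pderiv l (g a)) - w (Sum.inl l) := by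
  unfold phi
  have h1 : pderiv l (∑ l', C (w (Sum.inl l')) * X l' : MvPolynomial ι ℝ) = C (w (Sum.inl l)) := by
    rw [map_sum, Finset.sum_eq_single l]
    · rw [pderiv_C_mul, pderiv_X_self, mul_one]
    · intro b _ hb
      rw [pderiv_C_mul, pderiv_X_of_ne hb, mul_zero]
    · intro h
      exact absurd (Finset.mem_univ l) h
  have h2 : eval y (pderiv l (C (1 / 2) * ∑ a, (g a - C (w (Sum.inr a))) ^ 2)) =
      ∑ a, (eval y (g a) - w (Sum.inr a)) * eval y (pderiv l (g a)) := by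
    rw [pderiv_C_mul, map_mul, eval_C, map_sum, map_sum, Finset.mul_sum]
    refine Finset.sum_congr rfl fun a _ => ?_
    rw [pderiv_pow, map_mul, map_mul, map_sub, pderiv_C, sub_zero, map_pow, map_sub, eval_C]
    simp only [map_natCast, Nat.add_one_sub_one, pow_one]
    push_cast
    ring
  rw [map_sub, map_add, map_sub, map_add, h1, h2, eval_C]

/-- The region. -/
def Reg (P : MvPolynomial ι ℝ) (g : κ → MvPolynomial ι ℝ) (r : ℝ) : Set (ι ⊕ κ → ℝ) :=
  {z | eval (fun l => z (Sum.inl l)) P < 2 ∧ (∀ a, |z (Sum.inr a)| < 2) ∧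
    ∀ l, |eval z (gp P g l)| < r}

theorem measurableSet_Reg (P : MvPolynomial ι ℝ) (g : κ → MvPolynomial ι ℝ) (r : ℝ) :
    MeasurableSet (Reg P g r) := by
  refine IsOpen.measurableSet ?_
  refine IsOpen.inter ?_ (IsOpen.inter ?_ ?_)
  · have h0 : Continuous (fun z : ι ⊕ κ → ℝ => eval (fun l => z (Sum.inl l)) P) :=
      (continuous_eval P).comp (continuous_pi fun l => continuous_apply (Sum.inl l))
    exact isOpen_lt h0 continuous_const
  · have h1 : {z : ι ⊕ κ → ℝ | ∀ a, |z (Sum.inr a)| < 2} =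
        ⋂ a, {z : ι ⊕ κ → ℝ | |z (Sum.inr a)| < 2} := by
      ext z
      simp
    show IsOpen {z : ι ⊕ κ → ℝ | ∀ a, |z (Sum.inr a)| < 2}
    rw [h1]
    exact isOpen_iInter_of_finite fun a => isOpen_lt (continuous_apply (Sum.inr a)).abs continuous_const
  · have h1 : {z : ι ⊕ κ → ℝ | ∀ l, |eval z (gp P g l)| < r} =
        ⋂ l, {z : ι ⊕ κ → ℝ | |eval z (gp P g l)| < r} := by
      ext z
      simp
    show IsOpen {z : ι ⊕ κ → ℝ | ∀ l, |eval z (gp P g l)| < r}
    rw [h1]
    exact isOpen_iInter_of_finite fun l => isOpen_lt (continuous_eval (gp P g l)).abs continuous_const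

/-- **The critical point.** -/
theorem crit {P : MvPolynomial ι ℝ} {g : κ → MvPolynomial ι ℝ} (hP0 : ∀ y, 0 ≤ eval y P) {R r η : ℝ}
    (hbd : ∀ y : ι → ℝ, eval y P < 2 → ‖y‖ ≤ R)
    (hη : Fintype.card κ * η ^ 2 ≤ 1 / 4)
    (hr0 : 0 ≤ r) (hr : Fintype.card ι * (r * (2 * R + 1)) ≤ 1 / 8) {y₀ : ι → ℝ}
    (hy₀ : eval y₀ P ≤ 1) {w : ι ⊕ κ → ℝ} (hw1 : ∀ l, |w (Sum.inl l)| < r)
    (hw2 : ∀ a, |w (Sum.inr a) - eval y₀ (g a)| < η) :
    w ∈ pmap (th P g (hg g)) '' Reg P g r := by
  classical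
  obtain ⟨y, hyB, hymin⟩ := (isCompact_closedBall (0 : ι → ℝ) (R + 1)).exists_isMinOn
    ⟨y₀, by
      rw [mem_closedBall_zero_iff]
      exact (hbd y₀ (by linarith)).trans (by linarith)⟩
    (continuous_eval (phi P g w)).continuousOn
  have hy₀R : ‖y₀‖ ≤ R := hbd y₀ (by linarith)
  have hyR1 : ‖y‖ ≤ R + 1 := mem_closedBall_zero_iff.1 hyB
  have h1 : eval y (phi P g w) ≤ eval y₀ (phi P g w) :=
    hymin (by rw [mem_closedBall_zero_iff]; linarith)
  rw [eval_phi, eval_phi] at h1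
  have h2 : ∑ a, (eval y₀ (g a) - w (Sum.inr a)) ^ 2 ≤ 1 / 4 := by
    refine le_trans ?_ hη
    have : ∀ a ∈ (univ : Finset κ), (eval y₀ (g a) - w (Sum.inr a)) ^ 2 ≤ η ^ 2 := by
      intro a _
      have h3 := hw2 a
      rw [abs_sub_comm] at h3
      rw [← sq_abs]
      exact pow_le_pow_left₀ (abs_nonneg _) h3.le 2
    refine (Finset.sum_le_sum this).trans (le_of_eq ?_)
    rw [Finset.sum_const, Finset.card_univ, nsmul_eq_mul]
  have h3 : ∑ l, w (Sum.inl l) * y l - ∑ l, w (Sum.inl l) * y₀ l ≤ 1 / 8 := by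
    rw [← Finset.sum_sub_distrib]
    have h4 : ∀ l ∈ (univ : Finset ι), w (Sum.inl l) * y l - w (Sum.inl l) * y₀ l ≤
        r * (2 * R + 1) := by
      intro l _
      have h5 : w (Sum.inl l) * y l - w (Sum.inl l) * y₀ l ≤ |w (Sum.inl l)| * |y l - y₀ l| := by
        rw [← abs_mul, mul_sub]
        exact le_abs_self _
      refine h5.trans (mul_le_mul (hw1 l).le ?_ (abs_nonneg _) hr0)
      have h6 := (norm_le_pi_norm y l).trans hyR1
      have h7 := (norm_le_pi_norm y₀ l).trans hy₀R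
      rw [Real.norm_eq_abs] at h6 h7
      have := abs_sub (y l) (y₀ l)
      linarith
    refine (Finset.sum_le_sum h4).trans (le_trans (le_of_eq ?_) hr)
    rw [Finset.sum_const, Finset.card_univ, nsmul_eq_mul]
  have hsq0 : 0 ≤ ∑ a, (eval y (g a) - w (Sum.inr a)) ^ 2 :=
    Finset.sum_nonneg fun a _ => sq_nonneg _
  have h4 : eval y P + 1 / 2 * ∑ a, (eval y (g a) - w (Sum.inr a)) ^ 2 ≤ 5 / 4 := by linarith
  have hyP : eval y P < 2 := by linarith
  have hyR : ‖y‖ ≤ R := hbd y hyP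
  -- the critical point
  have hloc : IsLocalMin (fun x : ι → ℝ => eval x (phi P g w)) y := by
    have h5 : Metric.ball y 1 ∈ nhds y := Metric.ball_mem_nhds y one_pos
    filter_upwards [h5] with x hx
    refine hymin ?_
    rw [mem_closedBall_zero_iff]
    rw [Metric.mem_ball, dist_eq_norm] at hx
    have := norm_add_le (x - y) y
    rw [sub_add_cancel] at this
    linarith
  have hzero := hloc.hasFDerivAt_eq_zero (hasStrictFDerivAt_eval (phi P g w) y).hasFDerivAt
  have hpd : ∀ l, eval y (pderiv l (phi P g w)) = 0 := by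
    intro l
    have h5 := congrArg (fun T : (ι → ℝ) →L[ℝ] ℝ => T (Pi.single l 1)) hzero
    simp only [dEval_apply, zero_apply] at h5
    rw [Finset.sum_eq_single l] at h5
    · rwa [Pi.single_eq_same, mul_one] at h5
    · intro b _ hb
      rw [Pi.single_eq_of_ne hb, mul_zero]
    · intro h
      exact absurd (Finset.mem_univ l) h
  obtain ⟨z, hz1, hz2⟩ : ∃ z : ι ⊕ κ → ℝ, (fun l => z (Sum.inl l)) = y ∧
      ∀ a, z (Sum.inr a) = w (Sum.inr a) - eval y (g a) :=
    ⟨fun e => Sum.rec y (fun a => w (Sum.inr a) - eval y (g a)) e, rfl, fun _ => rfl⟩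
  have hgp : ∀ l, eval z (gp P g l) = w (Sum.inl l) := by
    intro l
    have h6 := hpd l
    rw [pderiv_phi] at h6
    unfold gp
    simp only [map_sub, map_sum, map_mul, eval_X, eval_up, hz1, hz2]
    have h7 : ∀ a ∈ (univ : Finset κ), (w (Sum.inr a) - eval y (g a)) * eval y (pderiv l (g a)) =
        -((eval y (g a) - w (Sum.inr a)) * eval y (pderiv l (g a))) := fun a _ => by ring
    rw [Finset.sum_congr rfl h7, Finset.sum_neg_distrib]
    linarith
  refine ⟨z, ?_, ?_⟩
  · refine ⟨?_, ?_, ?_⟩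
    · rw [hz1]
      exact hyP
    · intro a
      rw [hz2]
      have h5 : (eval y (g a) - w (Sum.inr a)) ^ 2 ≤ ∑ a, (eval y (g a) - w (Sum.inr a)) ^ 2 :=
        Finset.single_le_sum (f := fun a => (eval y (g a) - w (Sum.inr a)) ^ 2)
          (fun a _ => sq_nonneg _) (Finset.mem_univ a)
      have h6 := hP0 y
      rw [abs_sub_comm]
      refine abs_lt_of_sq_lt_sq (by linarith) (by norm_num)
    · intro l
      rw [hgp]
      exact hw1 l
  · funext e
    rcases e with l | a
    · exact hgp l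
    · show eval z (rename Sum.inl (g a) + X (Sum.inr a)) = _
      rw [map_add, eval_up, eval_X, hz1, hz2]
      ring

end Pool.TUBE
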